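import Pool.Agent.HC.FinIdx

/-!
# HC2 module Ext: extensions (diff 2)

`fp_ext`: PROOF.  Choose a surjection `φ : FreeGroup (Fin m) →* G` (`G` is finitely generated, since
`A` and `G ⧸ A` are) with kernel unknown, and `ψ : FreeGroup (Fin n) →* A` surjective with kernel the
normal closure of a finite set `S`.  By `fp_indep` the kernel of the surjection
`FreeGroup (Fin m) →* G ⧸ A` is the normal closure of a finite set `T`; `φ t ∈ A` for `t ∈ T`.  Choose
`θ : FreeGroup (Fin n) →* FreeGroup (Fin m)` with `φ (θ x) = ψ x` (on generators; `φ` is surjective).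
Let `R` be the finite set of: `θ s` (`s ∈ S`); `t * (θ u)⁻¹`, `t ∈ T`, with `u` such that
`ψ u = φ t`; `a * θ (of i) * a⁻¹ * (θ v)⁻¹` with `a` a generator of `FreeGroup (Fin m)` or its
inverse, `i : Fin n`, and `v` such that `ψ v = φ a * ψ (of i) * (φ a)⁻¹`.  `N = normalClosure R` is
contained in `φ.ker`.  Conversely let `φ x = 1`.  Let `P = N ⊔ θ.range` (as a set `N * θ.range`); by
the third kind of relators (both for `a` and `a⁻¹`) `P` is normal (it is enough that conjugation by
the generators and their inverses maps it into itself), and it contains `T` by the second kind; so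
`x ∈ normalClosure T ≤ P`: `x = n * θ u` with `n ∈ N`.  Then `ψ u = φ (θ u) = φ x = 1`, so
`u ∈ normalClosure S` and `θ u ∈ N` (`θ⁻¹ N` is normal and contains `S`).  So `x ∈ N`.
`fp2_quot`: PROOF.  Let `f, S` be as in `IsFP2 G`, `A` generated by a finite set; choose a finite set
`T ⊆ FreeGroup (Fin n)` with `f '' T` generating `A`.  Put `f' = mk ∘ f : FreeGroup (Fin n) →* G ⧸ A`,
`S' = S ∪ T`.  `f'.ker = f⁻¹ A`; if `f x ∈ A = closure (f '' T)` then `x = t * r` with
`t ∈ closure T`, `f r = 1`, and `r ∈ normalClosure S ⊔ ⁅f.ker, f.ker⁆ ≤ normalClosure S' ⊔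
⁅f'.ker, f'.ker⁆`.
-/

set_option autoImplicit false

namespace Pool.Agent.HC2

open Pool.Agent.HC

theorem Ext_fg {G : Type} [Group G] (A : Subgroup G) [A.Normal] (hA : A.FG) (hQ : Group.FG (G ⧸ A)) :
    Group.FG G := by
  classical
  obtain ⟨S, hS⟩ := hA
  obtain ⟨B, hB⟩ := hQ.out
  refine ⟨⟨S ∪ B.image (fun q : G ⧸ A => Quotient.out q), ?_⟩⟩
  set H := Subgroup.closure (((S ∪ B.image (fun q : G ⧸ A => Quotient.out q) : Finset G)) : Set G) with hH
  have h1 : A ≤ H := by
    rw [← hS, hH]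
    apply Subgroup.closure_mono
    rw [Finset.coe_union]
    exact Set.subset_union_left
  have h2 : H.map (QuotientGroup.mk' A) = ⊤ := by
    rw [eq_top_iff, ← hB, Subgroup.closure_le]
    intro q hq
    refine ⟨Quotient.out q, ?_, Quotient.out_eq q⟩
    apply Subgroup.subset_closure
    rw [Finset.coe_union]
    right
    rw [Finset.coe_image]
    exact ⟨q, hq, rfl⟩
  rw [eq_top_iff]
  intro g _
  have h3 : (QuotientGroup.mk' A g) ∈ H.map (QuotientGroup.mk' A) := by
    rw [h2]
    trivial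
  obtain ⟨h, hh, hg⟩ := h3
  have h4 : h⁻¹ * g ∈ A := by
    rw [← QuotientGroup.eq]
    exact hg
  have h5 := H.mul_mem hh (h1 h4)
  rwa [mul_inv_cancel_left] at h5

theorem Ext_surj {G : Type} [Group G] (hH : Group.FG G) :
    ∃ (m : ℕ) (f : FreeGroup (Fin m) →* G), Function.Surjective f := by
  obtain ⟨S, hS⟩ := hH.out
  refine ⟨S.card, FreeGroup.lift (fun i => ((S.equivFin.symm i : S) : G)), ?_⟩
  rw [← MonoidHom.range_eq_top, FreeGroup.range_lift_eq_closure, eq_top_iff, ← hS]
  apply Subgroup.closure_mono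
  intro x hx
  exact ⟨S.equivFin ⟨x, hx⟩, by simp⟩

theorem Ext_top {α : Type} (H : Subgroup (FreeGroup α)) (h : ∀ a, FreeGroup.of a ∈ H) : H = ⊤ := by
  rw [eq_top_iff, ← FreeGroup.closure_range_of, Subgroup.closure_le]
  rintro _ ⟨a, rfl⟩
  exact h a

theorem fp_ext {G : Type} [Group G] (A : Subgroup G) [A.Normal]
    (hA : Group.IsFinitelyPresented A) (hQ : Group.IsFinitelyPresented (G ⧸ A)) :
    Group.IsFinitelyPresented G := by
  classical
  obtain ⟨n, ψ, hψ, S, hS, hSk⟩ := hA.out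
  have hAfg : A.FG := (Group.fg_iff_subgroup_fg A).1 (Group.fg_of_surjective hψ)
  have hQfg : Group.FG (G ⧸ A) := by
    obtain ⟨k, χ, hχ, -⟩ := hQ.out
    exact Group.fg_of_surjective hχ
  obtain ⟨m, φ, hφ⟩ := Ext_surj (Ext_fg A hAfg hQfg)
  obtain ⟨T, hT, hTk⟩ := fp_indep hQ (inferInstance : Group.FG (FreeGroup (Fin m)))
    ((QuotientGroup.mk' A).comp φ) ((QuotientGroup.mk'_surjective A).comp hφ)
  choose t ht using fun i : Fin n => hφ (ψ (FreeGroup.of i) : G)
  let θ : FreeGroup (Fin n) →* FreeGroup (Fin m) := FreeGroup.lift t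
  have hθ : φ.comp θ = A.subtype.comp ψ := by
    ext i
    simp only [θ, MonoidHom.comp_apply, FreeGroup.lift_apply_of]
    exact ht i
  have hθ' : ∀ x, φ (θ x) = (ψ x : G) := fun x => DFunLike.congr_fun hθ x
  have hu : ∀ x : FreeGroup (Fin m), ∃ u : FreeGroup (Fin n), φ x ∈ A → (ψ u : G) = φ x := by
    intro x
    by_cases hx : φ x ∈ A
    · obtain ⟨u, hu⟩ := hψ ⟨φ x, hx⟩
      exact ⟨u, fun _ => by rw [hu]⟩
    · exact ⟨1, fun h => absurd h hx⟩
  choose u hu using hu
  let gn : Fin m × Bool → FreeGroup (Fin m) := fun q =>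
    if q.2 then FreeGroup.of q.1 else (FreeGroup.of q.1)⁻¹
  let R : Set (FreeGroup (Fin m)) := θ '' S ∪ (fun x => x * (θ (u x))⁻¹) '' T ∪
    Set.range (fun q : (Fin m × Bool) × Fin n =>
      gn q.1 * θ (FreeGroup.of q.2) * (gn q.1)⁻¹ *
        (θ (u (gn q.1 * θ (FreeGroup.of q.2) * (gn q.1)⁻¹)))⁻¹)
  have hR : R.Finite := ((hS.image _).union (hT.image _)).union (Set.finite_range _)
  refine ⟨m, φ, hφ, R, hR, ?_⟩
  have hle : Subgroup.normalClosure R ≤ φ.ker := by
    apply Subgroup.normalClosure_le_normal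
    rintro x ((⟨s, hs, rfl⟩ | ⟨y, hy, rfl⟩) | ⟨⟨a, i⟩, rfl⟩)
    · show φ (θ s) = 1
      rw [hθ']
      have : s ∈ ψ.ker := by rw [← hSk]; exact Subgroup.subset_normalClosure hs
      have h2 : ψ s = 1 := this
      rw [h2]
      rfl
    · show φ (y * (θ (u y))⁻¹) = 1
      have h1 : y ∈ ((QuotientGroup.mk' A).comp φ).ker := by
        rw [← hTk]
        exact Subgroup.subset_normalClosure hy
      have h2 : φ y ∈ A := by
        have h3 : (QuotientGroup.mk (φ y) : G ⧸ A) = 1 := h1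
        rwa [QuotientGroup.eq_one_iff] at h3
      rw [map_mul, map_inv, hθ', hu y h2, mul_inv_cancel]
    · show φ (gn a * θ (FreeGroup.of i) * (gn a)⁻¹ *
        (θ (u (gn a * θ (FreeGroup.of i) * (gn a)⁻¹)))⁻¹) = 1
      have h2 : φ (gn a * θ (FreeGroup.of i) * (gn a)⁻¹) ∈ A := by
        rw [map_mul, map_mul, map_inv, hθ']
        exact (inferInstance : A.Normal).conj_mem _ (ψ (FreeGroup.of i)).2 _
      rw [map_mul, map_inv φ (θ _), hθ', hu _ h2, mul_inv_cancel]
  refine le_antisymm hle ?_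
  intro x hx
  set N := Subgroup.normalClosure R with hN
  let P : Subgroup (FreeGroup (Fin m) ⧸ N) := ((QuotientGroup.mk' N).comp θ).range
  have hmem : ∀ y ∈ R, (QuotientGroup.mk y : FreeGroup (Fin m) ⧸ N) = 1 := fun y hy =>
    (QuotientGroup.eq_one_iff y).2 (Subgroup.subset_normalClosure hy)
  have hconj : ∀ (a : Fin m × Bool) (p : FreeGroup (Fin m) ⧸ N), p ∈ P →
      (QuotientGroup.mk (gn a) : FreeGroup (Fin m) ⧸ N) * p * (QuotientGroup.mk (gn a))⁻¹ ∈ P := by
    intro a p hp
    obtain ⟨v, rfl⟩ := hp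
    have h1 : P.comap ((MulAut.conj (QuotientGroup.mk (gn a) : FreeGroup (Fin m) ⧸ N)).toMonoidHom.comp
        ((QuotientGroup.mk' N).comp θ)) = ⊤ := by
      apply Ext_top
      intro i
      show (QuotientGroup.mk (gn a) : FreeGroup (Fin m) ⧸ N) * QuotientGroup.mk (θ (FreeGroup.of i)) *
        (QuotientGroup.mk (gn a))⁻¹ ∈ P
      refine ⟨u (gn a * θ (FreeGroup.of i) * (gn a)⁻¹), ?_⟩
      have h2 := hmem _ (Or.inr ⟨(a, i), rfl⟩)
      have h3 : (QuotientGroup.mk (gn a * θ (FreeGroup.of i) * (gn a)⁻¹) : FreeGroup (Fin m) ⧸ N) *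
          (QuotientGroup.mk (θ (u (gn a * θ (FreeGroup.of i) * (gn a)⁻¹))))⁻¹ = 1 := h2
      exact (mul_inv_eq_one.1 h3).symm
    have h2 : v ∈ P.comap ((MulAut.conj (QuotientGroup.mk (gn a) : FreeGroup (Fin m) ⧸ N)).toMonoidHom.comp
        ((QuotientGroup.mk' N).comp θ)) := by
      rw [h1]
      trivial
    exact h2
  have hnorm : (Subgroup.normalizer (P : Set (FreeGroup (Fin m) ⧸ N))).comap (QuotientGroup.mk' N) = ⊤ := by
    apply Ext_top
    intro j
    show (QuotientGroup.mk (FreeGroup.of j) : FreeGroup (Fin m) ⧸ N) ∈ (Subgroup.normalizer (P : Set (FreeGroup (Fin m) ⧸ N)))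
    rw [Subgroup.mem_normalizer_iff]
    intro p
    constructor
    · intro hp
      exact hconj (j, true) p hp
    · intro hp
      have h1 := hconj (j, false) _ hp
      have h2 : (QuotientGroup.mk (gn (j, false)) : FreeGroup (Fin m) ⧸ N) =
          (QuotientGroup.mk (FreeGroup.of j))⁻¹ := rfl
      rw [h2] at h1
      have h3 : (QuotientGroup.mk (FreeGroup.of j) : FreeGroup (Fin m) ⧸ N)⁻¹ *
          (QuotientGroup.mk (FreeGroup.of j) * p * (QuotientGroup.mk (FreeGroup.of j))⁻¹) *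
          ((QuotientGroup.mk (FreeGroup.of j))⁻¹)⁻¹ = p := by group
      rwa [h3] at h1
  have hPn : (P.comap (QuotientGroup.mk' N)).Normal := by
    constructor
    intro y hy g
    show (QuotientGroup.mk g : FreeGroup (Fin m) ⧸ N) * QuotientGroup.mk y * (QuotientGroup.mk g)⁻¹ ∈ P
    have h1 : g ∈ (Subgroup.normalizer (P : Set (FreeGroup (Fin m) ⧸ N))).comap (QuotientGroup.mk' N) := by
      rw [hnorm]
      trivial
    have h2 : (QuotientGroup.mk g : FreeGroup (Fin m) ⧸ N) ∈ (Subgroup.normalizer (P : Set (FreeGroup (Fin m) ⧸ N))) := h1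
    exact (Subgroup.mem_normalizer_iff.1 h2 _).1 hy
  have hTP : Subgroup.normalClosure T ≤ P.comap (QuotientGroup.mk' N) := by
    apply Subgroup.normalClosure_le_normal
    intro y hy
    refine ⟨u y, ?_⟩
    have h2 := hmem _ (Or.inl (Or.inr ⟨y, hy, rfl⟩))
    have h3 : (QuotientGroup.mk y : FreeGroup (Fin m) ⧸ N) * (QuotientGroup.mk (θ (u y)))⁻¹ = 1 := h2
    exact (mul_inv_eq_one.1 h3).symm
  have hx1 : φ x = 1 := hx
  have hxT : x ∈ Subgroup.normalClosure T := by
    rw [hTk]
    show (QuotientGroup.mk (φ x) : G ⧸ A) = 1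
    rw [hx1]
    rfl
  obtain ⟨v, hv⟩ := hTP hxT
  have hv' : (QuotientGroup.mk (θ v) : FreeGroup (Fin m) ⧸ N) = QuotientGroup.mk x := hv
  rw [QuotientGroup.eq] at hv'
  have h1 : φ ((θ v)⁻¹ * x) = 1 := hle hv'
  rw [map_mul, map_inv, hx1, mul_one, inv_eq_one, hθ'] at h1
  have h2 : v ∈ Subgroup.normalClosure S := by
    rw [hSk]
    exact Subtype.ext h1
  have h3 : Subgroup.normalClosure S ≤ N.comap θ := by
    apply Subgroup.normalClosure_le_normal
    intro s hs
    exact Subgroup.subset_normalClosure (Or.inl (Or.inl ⟨s, hs, rfl⟩))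
  have h4 : θ v ∈ N := h3 h2
  have h5 := N.mul_mem h4 hv'
  rwa [mul_inv_cancel_left] at h5

theorem fp2_quot {G : Type} [Group G] (A : Subgroup G) [A.Normal] (hA : A.FG) (hG : IsFP2 G) :
    IsFP2 (G ⧸ A) := by
  classical
  obtain ⟨n, f, hf, S, hS, hk⟩ := hG
  obtain ⟨B, hB⟩ := hA
  choose t ht using hf
  have hf' : Function.Surjective ((QuotientGroup.mk' A).comp f) :=
    (QuotientGroup.mk'_surjective A).comp (fun x => ⟨t x, ht x⟩)
  have hker : f.ker ≤ ((QuotientGroup.mk' A).comp f).ker := by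
    intro x hx
    have hx1 : f x = 1 := hx
    show (QuotientGroup.mk (f x) : G ⧸ A) = 1
    rw [hx1]
    rfl
  have hS' : ∀ s ∈ S ∪ B.image t, ((QuotientGroup.mk' A).comp f) s = 1 := by
    intro s hs
    rcases Finset.mem_union.1 hs with hs | hs
    · exact hker (hS s hs)
    · obtain ⟨b, hb, rfl⟩ := Finset.mem_image.1 hs
      show (QuotientGroup.mk (f (t b)) : G ⧸ A) = 1
      rw [QuotientGroup.eq_one_iff, ht, ← hB]
      exact Subgroup.subset_closure hb
  refine ⟨n, (QuotientGroup.mk' A).comp f, hf', S ∪ B.image t, hS', ?_⟩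
  apply le_antisymm
  · intro x hx
    have hx1 : (QuotientGroup.mk (f x) : G ⧸ A) = 1 := hx
    rw [QuotientGroup.eq_one_iff, ← hB] at hx1
    have h1 : Subgroup.closure (B : Set G) ≤ (Subgroup.closure ((B.image t : Finset _) : Set (FreeGroup (Fin n)))).map f := by
      rw [Subgroup.closure_le]
      intro b hb
      refine ⟨t b, Subgroup.subset_closure ?_, ht b⟩
      rw [Finset.coe_image]
      exact ⟨b, hb, rfl⟩
    obtain ⟨y, hy, hyx⟩ := h1 hx1
    have h2 : y⁻¹ * x ∈ f.ker := by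
      show f (y⁻¹ * x) = 1
      rw [map_mul, map_inv, hyx, inv_mul_cancel]
    have h3 : f.ker ≤ Subgroup.normalClosure ((S ∪ B.image t : Finset _) : Set (FreeGroup (Fin n))) ⊔
        ⁅((QuotientGroup.mk' A).comp f).ker, ((QuotientGroup.mk' A).comp f).ker⁆ := by
      rw [hk]
      apply sup_le_sup
      · apply Subgroup.normalClosure_mono
        rw [Finset.coe_union]
        exact Set.subset_union_left
      · exact Subgroup.commutator_mono hker hker
    have h4 : y ∈ Subgroup.normalClosure ((S ∪ B.image t : Finset _) : Set (FreeGroup (Fin n))) ⊔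
        ⁅((QuotientGroup.mk' A).comp f).ker, ((QuotientGroup.mk' A).comp f).ker⁆ := by
      apply Subgroup.mem_sup_left
      apply Subgroup.closure_le_normalClosure
      refine Subgroup.closure_mono ?_ hy
      rw [Finset.coe_union]
      exact Set.subset_union_right
    have h5 := Subgroup.mul_mem _ h4 (h3 h2)
    rwa [mul_inv_cancel_left] at h5
  · apply sup_le
    · apply Subgroup.normalClosure_le_normal
      intro s hs
      exact hS' s hs
    · exact Subgroup.commutator_le_left _ _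

end Pool.Agent.HC2
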