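import Pool.Agent.HC2.Lst

/-!
# HC2 module SC: finite form of simple connectivity (diff 2)

PROOF.  Let `Φ = FreeGroup (V × V)`, and let `Rel ⊆ Φ` be the set of the elements
`of (x, y) * of (y, x)` (`x, y` adjacent) and `((cyc c).map of).prod` (`c ∈ C`).
(1) An element of `Subgroup.normalClosure Rel` lies in `Subgroup.normalClosure R` for a finite
`R ⊆ Rel` (`Subgroup.closure_induction` on the conjugates, or a general lemma; unions of two finite
sets).
(2) Fix a vertex `p` (`conn.nonempty`) and for every `v` a walk from `p` to `v`; let `ω v ∈ Φ` be the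
product of `of (fst, snd)` over its darts.  Apply `sc` to `Q = Φ ⧸ normalClosure Rel` and
`F x y = mk (of (x, y))`: there is `φ : V → Q` with `F x y = (φ x)⁻¹ * φ y` for adjacent `x, y`, hence
`mk (ω v) = (φ p)⁻¹ * φ v` (induction on the walk).  So for adjacent `x, y` the element
`ω x * of (x, y) * (ω y)⁻¹` is in `normalClosure Rel`, hence in `normalClosure (R x y)` for a finite
set `R x y ⊆ Rel`.
(3) `W` = `W₀`, the vertices of the walks to the elements of `W₀`, and for all adjacent `x, y ∈ W₀`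
and all elements of `R x y` the vertices of a pair `(x', y')` or of a cell `c` which gives this
element of `Rel` (choose one).  It is finite.
(4) Let `Q, F` be as in the statement, and `Ψ : Φ →* Q`, `Ψ (of (x, y)) = F x y`
(`FreeGroup.lift`).  `Ψ` is trivial on the elements of `R x y` (all their vertices are in `W`), so
`Ψ (ω x) * F x y * (Ψ (ω y))⁻¹ = 1`, and `φ v = Ψ (ω v)` works.
-/

set_option autoImplicit false

namespace Pool.Agent.HC2

open Pool.Agent.HC

theorem SC_ncl {Φ : Type} [Group Φ] (Rel : Set Φ) {g : Φ} (hg : g ∈ Subgroup.normalClosure Rel) :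
    ∃ R : Set Φ, R ⊆ Rel ∧ R.Finite ∧ g ∈ Subgroup.normalClosure R := by
  let K : Subgroup Φ :=
    { carrier := {g | ∃ R : Set Φ, R ⊆ Rel ∧ R.Finite ∧ g ∈ Subgroup.normalClosure R}
      one_mem' := ⟨∅, Set.empty_subset _, Set.finite_empty, one_mem _⟩
      mul_mem' := by
        rintro a b ⟨R, h1, h2, h3⟩ ⟨R', h1', h2', h3'⟩
        exact ⟨R ∪ R', Set.union_subset h1 h1', h2.union h2',
          mul_mem (Subgroup.normalClosure_mono Set.subset_union_left h3)
            (Subgroup.normalClosure_mono Set.subset_union_right h3')⟩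
      inv_mem' := by
        rintro a ⟨R, h1, h2, h3⟩
        exact ⟨R, h1, h2, inv_mem h3⟩ }
  have hK : K.Normal := by
    refine ⟨?_⟩
    rintro a ⟨R, h1, h2, h3⟩ b
    exact ⟨R, h1, h2, Subgroup.normalClosure_normal.conj_mem a h3 b⟩
  have hle : Subgroup.normalClosure Rel ≤ K := by
    refine Subgroup.normalClosure_le_normal ?_
    intro r hr
    exact ⟨{r}, Set.singleton_subset_iff.2 hr, Set.finite_singleton r,
      Subgroup.subset_normalClosure (Set.mem_singleton r)⟩
  exact hle hg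

theorem exists_sc {V : Type} (X : SimpleGraph V) (C : Set (List V)) (conn : X.Connected)
    (sc : ∀ (Q : Type) [Group Q] (F : V → V → Q), (∀ x y, X.Adj x y → F y x = (F x y)⁻¹) →
      (∀ c ∈ C, ((cyc c).map fun e => F e.1 e.2).prod = 1) →
        ∃ φ : V → Q, ∀ x y, X.Adj x y → F x y = (φ x)⁻¹ * φ y)
    (path : ∀ c ∈ C, ∀ e ∈ cyc c, X.Adj e.1 e.2)
    (W₀ : Set V) (h₀ : W₀.Finite) : ∃ W : Set V, W.Finite ∧ W₀ ⊆ W ∧
      ∀ (Q : Type) [Group Q] (F : V → V → Q),
        (∀ x ∈ W, ∀ y ∈ W, X.Adj x y → F y x = (F x y)⁻¹) →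
        (∀ c ∈ C, (∀ x ∈ c, x ∈ W) → ((cyc c).map fun e => F e.1 e.2).prod = 1) →
          ∃ φ : V → Q, ∀ x ∈ W₀, ∀ y ∈ W₀, X.Adj x y → F x y = (φ x)⁻¹ * φ y := by
  classical
  let Rel : Set (FreeGroup (V × V)) := {r | (∃ x y, X.Adj x y ∧ r = FreeGroup.of (x, y) * FreeGroup.of (y, x)) ∨
    ∃ c ∈ C, r = ((cyc c).map FreeGroup.of).prod}
  obtain ⟨p⟩ := conn.nonempty
  have hwk : ∀ v, ∃ _ : X.Walk p v, True := fun v => ⟨(conn.preconnected p v).some, trivial⟩
  choose wk _ using hwk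
  let ω : V → FreeGroup (V × V) := fun v => ((wk v).darts.map fun d => FreeGroup.of (d.fst, d.snd)).prod
  have hkey : ∀ x y, X.Adj x y → ω x * FreeGroup.of (x, y) * (ω y)⁻¹ ∈ Subgroup.normalClosure Rel := by
    obtain ⟨φ, hφ⟩ := sc (FreeGroup (V × V) ⧸ Subgroup.normalClosure Rel)
      (fun x y => QuotientGroup.mk' (Subgroup.normalClosure Rel) (FreeGroup.of (x, y))) (by
        intro x y hxy
        refine eq_inv_of_mul_eq_one_right ?_
        rw [← map_mul]
        exact (QuotientGroup.eq_one_iff _).2 (Subgroup.subset_normalClosure (Or.inl ⟨x, y, hxy, rfl⟩))) (by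
        intro c hc
        have h1 : ((cyc c).map fun e : V × V =>
            QuotientGroup.mk' (Subgroup.normalClosure Rel) (FreeGroup.of (e.1, e.2))).prod =
            QuotientGroup.mk' (Subgroup.normalClosure Rel) ((cyc c).map FreeGroup.of).prod := by
          rw [map_list_prod, List.map_map]
          rfl
        rw [h1]
        exact (QuotientGroup.eq_one_iff _).2 (Subgroup.subset_normalClosure (Or.inr ⟨c, hc, rfl⟩)))
    have hw : ∀ {u v : V} (w : X.Walk u v),
        QuotientGroup.mk' (Subgroup.normalClosure Rel) (w.darts.map fun d => FreeGroup.of (d.fst, d.snd)).prod =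
          (φ u)⁻¹ * φ v := by
      intro u v w
      induction w with
      | nil => simp
      | cons h q ih =>
        rw [SimpleGraph.Walk.darts_cons, List.map_cons, List.prod_cons, map_mul, ih, hφ _ _ h]
        group
    intro x y hxy
    refine (QuotientGroup.eq_one_iff _).1 ?_
    change QuotientGroup.mk' (Subgroup.normalClosure Rel) (ω x * FreeGroup.of (x, y) * (ω y)⁻¹) = 1
    rw [map_mul, map_mul, map_inv, hw (wk x), hw (wk y), hφ x y hxy]
    group
  have hR : ∀ x y, ∃ R : Set (FreeGroup (V × V)), R ⊆ Rel ∧ R.Finite ∧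
      (X.Adj x y → ω x * FreeGroup.of (x, y) * (ω y)⁻¹ ∈ Subgroup.normalClosure R) := by
    intro x y
    by_cases hxy : X.Adj x y
    · obtain ⟨R, h1, h2, h3⟩ := SC_ncl Rel (hkey x y hxy)
      exact ⟨R, h1, h2, fun _ => h3⟩
    · exact ⟨∅, Set.empty_subset _, Set.finite_empty, fun h => absurd h hxy⟩
  choose R hR1 hR2 hR3 using hR
  have hS : ∀ r : FreeGroup (V × V), ∃ S : Set V, S.Finite ∧ (r ∈ Rel →
      (∃ x y, X.Adj x y ∧ x ∈ S ∧ y ∈ S ∧ r = FreeGroup.of (x, y) * FreeGroup.of (y, x)) ∨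
        ∃ c ∈ C, (∀ x ∈ c, x ∈ S) ∧ r = ((cyc c).map FreeGroup.of).prod) := by
    intro r
    by_cases hr : r ∈ Rel
    · rcases hr with ⟨x, y, h1, h2⟩ | ⟨c, h1, h2⟩
      · exact ⟨{x, y}, Set.toFinite _, fun _ => Or.inl ⟨x, y, h1, by simp, by simp, h2⟩⟩
      · exact ⟨{x | x ∈ c}, List.finite_toSet c, fun _ => Or.inr ⟨c, h1, fun x hx => hx, h2⟩⟩
    · exact ⟨∅, Set.finite_empty, fun h => absurd h hr⟩
  choose S hS1 hS2 using hS
  refine ⟨W₀ ∪ ⋃ x ∈ W₀, ⋃ y ∈ W₀, ⋃ r ∈ R x y, S r, ?_, Set.subset_union_left, ?_⟩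
  · exact h₀.union (h₀.biUnion fun x _ => h₀.biUnion fun y _ => (hR2 x y).biUnion fun r _ => hS1 r)
  · intro Q _ F hF hC
    let Ψ : FreeGroup (V × V) →* Q := FreeGroup.lift fun e => F e.1 e.2
    refine ⟨fun v => Ψ (ω v), ?_⟩
    intro x hx y hy hxy
    have hsub : ∀ r ∈ R x y, S r ⊆ W₀ ∪ ⋃ x ∈ W₀, ⋃ y ∈ W₀, ⋃ r ∈ R x y, S r := by
      intro r hr v hv
      refine Or.inr ?_
      simp only [Set.mem_iUnion]
      exact ⟨x, hx, y, hy, r, hr, hv⟩
    have hker : Subgroup.normalClosure (R x y) ≤ Ψ.ker := by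
      refine Subgroup.normalClosure_le_normal ?_
      intro r hr
      change Ψ r = 1
      rcases hS2 r (hR1 x y hr) with ⟨a, b, h1, h2, h3, h4⟩ | ⟨c, h1, h2, h3⟩
      · rw [h4, map_mul]
        change FreeGroup.lift _ _ * FreeGroup.lift _ _ = 1
        rw [FreeGroup.lift_apply_of, FreeGroup.lift_apply_of]
        change F a b * F b a = 1
        rw [hF a (hsub r hr h2) b (hsub r hr h3) h1, mul_inv_cancel]
      · rw [h3, map_list_prod, List.map_map]
        have h5 : (Ψ ∘ FreeGroup.of) = fun e : V × V => F e.1 e.2 := by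
          funext e
          change FreeGroup.lift _ _ = _
          rw [FreeGroup.lift_apply_of]
        rw [h5]
        exact hC c h1 fun v hv => hsub r hr (h2 v hv)
    have h6 : Ψ (ω x * FreeGroup.of (x, y) * (ω y)⁻¹) = 1 := hker (hR3 x y hxy)
    rw [map_mul, map_mul, map_inv] at h6
    have h7 : Ψ (FreeGroup.of (x, y)) = F x y := by
      change FreeGroup.lift _ _ = _
      rw [FreeGroup.lift_apply_of]
    rw [h7] at h6
    have h8 : Ψ (ω x) * F x y = Ψ (ω y) := mul_inv_eq_one.1 h6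
    change F x y = (Ψ (ω x))⁻¹ * Ψ (ω y)
    rw [← h8]
    group

end Pool.Agent.HC2
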