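import Pool.Agent.HC2.Lst

/-!
# HC2 module SqR: finitely many cells, finitely many requirements imply `CReq` (diff 2)

(Compare `HC.SqR`, which is the case of squares.)
`cells_finite`: a 2-cell `c ∈ C` in `W` is a rotation of `m` or of `m.reverse` for some
`m = x :: y :: l` with `M x y l` (`all`), and then `x, y ∈ W`; `l` is determined by `(x, y)` (`inj`).
So there are finitely many such `m` (the set of the `x :: y :: l` with `M x y l`, `x, y ∈ W` is finite:
the map to `(x, y) ∈ W × W` is injective on it), and each list has finitely many rotations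
(`List.cyclicPermutations` / `c = m.rotate k` with `k ≤ m.length`, `List.IsRotated` /
`List.isRotated_iff_mod`); `m.IsRotated c.reverse` gives `c = (m.rotate k).reverse`.
`exists_creq`, PROOF.  For a 2-cell `c` in `W` let `H_c` be its pointwise stabilizer, finitely
generated by `hsl`: choose a finite generating set `Γ c`.  For two 2-cells `c, c'` in `W` such that
there is `g` with `c.map (g • ·) = c'` choose such a `g c c'`.  Let `𝓡` be the set of the triples
`(γ, e.1, e.2)` with `c` a 2-cell in `W`, `e ∈ cyc c`, `γ ∈ Γ c`, and `(g c c', e.1, e.2)`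
(`e ∈ cyc c`); it is finite by `cells_finite`.
Let `T` satisfy `Req` on `𝓡`, let `c` be a 2-cell in `W`, `g : H` with `g • x ∈ W` for all `x ∈ c`, so
`c' = c.map (g • ·)` is a 2-cell in `W` (`cell`).  Let `e = (x, y) ∈ cyc c`.
Write `k = (T.st x y).2.1`, `B = T.D.B (T.st x y).1`.
(1) For `γ ∈ H_c` (so `γ • x = x`, `γ • y = y`, `mem_cyc`) `Req γ x y` says `k⁻¹ * (γ * k) ∈ B`; this
holds for `γ ∈ Γ c`, hence for all `γ ∈ H_c` (`Subgroup.closure_induction`).
(2) `γ = (g c c')⁻¹ * g ∈ H_c` (equality of the two mapped lists).  `Req (g c c') x y` gives the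
equality of the first and third components (`g c c' • x = g • x` etc.) and
`k'⁻¹ * (g c c' * k) ∈ B`, `k' = (T.st (g • x) (g • y)).2.1`.  So
`k'⁻¹ * (g * k) = (k'⁻¹ * (g c c' * k)) * (k⁻¹ * (γ * k)) ∈ B`.
-/

set_option autoImplicit false

namespace Pool.Agent.HC2

open Pool.Agent.HC

theorem cells_finite {V : Type} {C : Set (List V)} {M : V → V → List V → Prop}
    (hM : IsMatching C M) {W : Set V} (hW : W.Finite) : {c ∈ C | ∀ x ∈ c, x ∈ W}.Finite := by
  classical
  let f : V × V → List V := fun p => if h : ∃ l, M p.1 p.2 l then p.1 :: p.2 :: h.choose else []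
  let 𝓜 : Set (List V) := f '' (W ×ˢ W)
  have h𝓜 : 𝓜.Finite := (hW.prod hW).image f
  have hrot : ∀ m : List V, {c : List V | m.IsRotated c}.Finite := by
    intro m
    refine ((Set.finite_Iic m.length).image (fun n => m.rotate n)).subset ?_
    intro c hc
    obtain ⟨n, hn, hn'⟩ := List.isRotated_iff_mod.1 hc
    exact ⟨n, hn, hn'⟩
  have hrot' : ∀ m : List V, {c : List V | m.IsRotated c.reverse}.Finite := by
    intro m
    have e : {c : List V | m.IsRotated c.reverse} = List.reverse ⁻¹' {c : List V | m.IsRotated c} := rfl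
    rw [e]
    exact Set.Finite.preimage List.reverse_injective.injOn (hrot m)
  refine (h𝓜.biUnion fun m _ => (hrot m).union (hrot' m)).subset ?_
  rintro c ⟨hc, hcW⟩
  obtain ⟨x, y, l, hm, hr⟩ := hM.all c hc
  have hmem : ∀ z ∈ x :: y :: l, z ∈ W := by
    intro z hz
    rcases hr with hr | hr
    · exact hcW z (hr.mem_iff.1 hz)
    · exact hcW z (List.mem_reverse.1 (hr.mem_iff.1 hz))
  have hx : x ∈ W := hmem x (by simp)
  have hy : y ∈ W := hmem y (by simp)
  have hf : f (x, y) = x :: y :: l := by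
    have hex : ∃ l, M x y l := ⟨l, hm⟩
    show (if h : ∃ l, M x y l then x :: y :: h.choose else []) = x :: y :: l
    rw [dif_pos hex]
    have h1 := hM.inj x y _ x y l hex.choose_spec hm rfl
    rw [h1.2.2]
  simp only [Set.mem_iUnion]
  refine ⟨x :: y :: l, ⟨(x, y), ⟨hx, hy⟩, hf⟩, ?_⟩
  exact hr

theorem exists_creq {H : Type} [Group H] {V : Type} [MulAction H V] {X : SimpleGraph V}
    {C : Set (List V)} (path : ∀ c ∈ C, ∀ e ∈ cyc c, X.Adj e.1 e.2)
    (mt : ∃ M, IsMatching C M)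
    (cell : ∀ (g : H), ∀ c ∈ C, (c.map fun x => g • x) ∈ C)
    (hsl : ∀ c ∈ C, ∀ K : Subgroup H, (∀ g ∈ K, ∀ x ∈ c, g • x = x) → K.FG)
    (W : Set V) (hW : W.Finite) :
    ∃ 𝓡 : Set (H × V × V), 𝓡.Finite ∧
      (∀ g x y, (g, x, y) ∈ 𝓡 → x ∈ W ∧ y ∈ W ∧ g • x ∈ W ∧ g • y ∈ W ∧ X.Adj x y) ∧
      ∀ T : Lft H V X W, (∀ g x y, (g, x, y) ∈ 𝓡 → T.Req g x y) → CReq C T := by
  classical
  obtain ⟨M, hM⟩ := mt
  let 𝒮 : Set (List V) := {c ∈ C | ∀ x ∈ c, x ∈ W}
  have h𝒮 : 𝒮.Finite := cells_finite hM hW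
  let K : List V → Subgroup H := fun c =>
    { carrier := {g | ∀ x ∈ c, g • x = x}
      mul_mem' := by
        intro a b ha hb x hx
        rw [mul_smul, hb x hx, ha x hx]
      one_mem' := by
        intro x _
        exact one_smul _ _
      inv_mem' := by
        intro a ha x hx
        rw [inv_smul_eq_iff, ha x hx] }
  have hK : ∀ c g, g ∈ K c ↔ ∀ x ∈ c, g • x = x := fun c g => Iff.rfl
  have hfg : ∀ c ∈ 𝒮, ∃ Γ : Finset H, Subgroup.closure (Γ : Set H) = K c := by
    intro c hc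
    exact hsl c hc.1 (K c) (fun g hg => (hK c g).1 hg)
  choose! Γ hΓ using hfg
  let gg : List V → List V → H := fun c c' =>
    if h : ∃ g : H, (c.map fun x => g • x) = c' then h.choose else 1
  have hgg : ∀ c c' : List V, (∃ g : H, (c.map fun x => g • x) = c') → (c.map fun x => gg c c' • x) = c' := by
    intro c c' h
    have e : gg c c' = h.choose := dif_pos h
    rw [e]
    exact h.choose_spec
  let 𝓡₁ : Set (H × V × V) := ⋃ c ∈ 𝒮, ⋃ e ∈ {e | e ∈ cyc c}, (fun γ => (γ, e.1, e.2)) '' (Γ c : Set H)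
  let 𝓡₂ : Set (H × V × V) := ⋃ c ∈ 𝒮, ⋃ c' ∈ {c' ∈ 𝒮 | ∃ g : H, (c.map fun x => g • x) = c'},
    (fun e => (gg c c', e.1, e.2)) '' {e | e ∈ cyc c}
  refine ⟨𝓡₁ ∪ 𝓡₂, ?_, ?_, ?_⟩
  · refine Set.Finite.union ?_ ?_
    · exact h𝒮.biUnion fun c _ => (List.finite_toSet _).biUnion fun e _ => (Γ c).finite_toSet.image _
    · exact h𝒮.biUnion fun c _ => (h𝒮.subset fun c' hc' => hc'.1).biUnion fun c' _ =>
        (List.finite_toSet _).image _
  · rintro g x y (h | h)
    · simp only [𝓡₁, Set.mem_iUnion] at h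
      obtain ⟨c, hc, e, he, γ, hγ, heq⟩ := h
      simp only [Prod.mk.injEq] at heq
      obtain ⟨rfl, rfl, rfl⟩ := heq
      have hγK : γ ∈ K c := by
        rw [← hΓ c hc]
        exact Subgroup.subset_closure hγ
      obtain ⟨m1, m2⟩ := mem_cyc he
      have k1 := (hK c γ).1 hγK _ m1
      have k2 := (hK c γ).1 hγK _ m2
      rw [k1, k2]
      exact ⟨hc.2 _ m1, hc.2 _ m2, hc.2 _ m1, hc.2 _ m2, path c hc.1 e he⟩
    · simp only [𝓡₂, Set.mem_iUnion] at h
      obtain ⟨c, hc, c', ⟨hc', hg⟩, e, he, heq⟩ := h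
      simp only [Prod.mk.injEq] at heq
      obtain ⟨rfl, rfl, rfl⟩ := heq
      have h1 := hgg c c' hg
      obtain ⟨m1, m2⟩ := mem_cyc he
      have k : ∀ x ∈ c, gg c c' • x ∈ W := by
        intro x hx
        apply hc'.2
        rw [← h1]
        exact List.mem_map.2 ⟨x, hx, by rw [h1]⟩
      exact ⟨hc.2 _ m1, hc.2 _ m2, k _ m1, k _ m2, path c hc.1 e he⟩
  · intro T hT c hc g hg e he
    obtain ⟨c', hc'def⟩ : ∃ c', c' = c.map fun x => g • x := ⟨_, rfl⟩
    have hs : c ∈ 𝒮 := ⟨hc, fun x hx => (hg x hx).1⟩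
    have hs' : c' ∈ 𝒮 := by
      refine ⟨by rw [hc'def]; exact cell g c hc, ?_⟩
      intro x hx
      rw [hc'def] at hx
      obtain ⟨z, hz, rfl⟩ := List.mem_map.1 hx
      exact (hg z hz).2
    have hex : ∃ g : H, (c.map fun x => g • x) = c' := ⟨g, hc'def.symm⟩
    obtain ⟨h, hhdef⟩ : ∃ h, h = gg c c' := ⟨_, rfl⟩
    have hh : ∀ x ∈ c, h • x = g • x := by
      have h1 := hgg c c' hex
      rw [← hhdef, hc'def] at h1
      intro x hx
      exact List.map_inj_left.1 h1 x hx
    obtain ⟨m1, m2⟩ := mem_cyc he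
    have k1 := hh _ m1
    have k2 := hh _ m2
    have hR : T.Req h e.1 e.2 := by
      apply hT
      right
      simp only [𝓡₂, Set.mem_iUnion]
      exact ⟨c, hs, c', ⟨hs', hex⟩, e, he, by rw [hhdef]⟩
    obtain ⟨r1, r2, r3⟩ := hR
    rw [k1, k2] at r1 r2 r3
    -- the stabilizer
    have hstab : ∀ γ ∈ K c, (T.st e.1 e.2).2.1⁻¹ * (γ * (T.st e.1 e.2).2.1) ∈
        T.D.B (T.st e.1 e.2).1 := by
      intro γ hγ
      rw [← hΓ c hs] at hγ
      induction hγ using Subgroup.closure_induction with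
      | mem γ hγ' =>
        have hreq : T.Req γ e.1 e.2 := by
          apply hT
          left
          simp only [𝓡₁, Set.mem_iUnion]
          exact ⟨c, hs, e, he, γ, hγ', rfl⟩
        have hγK : γ ∈ K c := by
          rw [← hΓ c hs]
          exact Subgroup.subset_closure hγ'
        have j1 := (hK c γ).1 hγK _ m1
        have j2 := (hK c γ).1 hγK _ m2
        obtain ⟨_, _, q3⟩ := hreq
        rw [j1, j2] at q3
        exact q3
      | one =>
        rw [one_mul, inv_mul_cancel]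
        exact Subgroup.one_mem _
      | mul a b _ _ ha hb =>
        have : (T.st e.1 e.2).2.1⁻¹ * (a * b * (T.st e.1 e.2).2.1) =
            ((T.st e.1 e.2).2.1⁻¹ * (a * (T.st e.1 e.2).2.1)) *
            ((T.st e.1 e.2).2.1⁻¹ * (b * (T.st e.1 e.2).2.1)) := by group
        rw [this]
        exact Subgroup.mul_mem _ ha hb
      | inv a _ ha =>
        have : (T.st e.1 e.2).2.1⁻¹ * (a⁻¹ * (T.st e.1 e.2).2.1) =
            ((T.st e.1 e.2).2.1⁻¹ * (a * (T.st e.1 e.2).2.1))⁻¹ := by group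
        rw [this]
        exact Subgroup.inv_mem _ ha
    have hγ : h⁻¹ * g ∈ K c := by
      rw [hK]
      intro x hx
      rw [mul_smul, ← hh x hx, inv_smul_smul]
    refine ⟨r1, r2, ?_⟩
    have e1 : (T.st (g • e.1) (g • e.2)).2.1⁻¹ * (g * (T.st e.1 e.2).2.1) =
        ((T.st (g • e.1) (g • e.2)).2.1⁻¹ * (h * (T.st e.1 e.2).2.1)) *
        ((T.st e.1 e.2).2.1⁻¹ * ((h⁻¹ * g) * (T.st e.1 e.2).2.1)) := by group
    rw [e1]
    exact Subgroup.mul_mem _ r3 (hstab _ hγ)

end Pool.Agent.HC2
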