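import Pool.Agent.HC2.UniA

/-!
# HC2 module UniB: the universal cocycle (diff 3)

(Generalizes `Pool.Agent.HC.UniB`; copy and adapt.)  The edge `(j, h)` of `D` lies above the edge
`ue j h = s(h • (pe j).1, h • (pe j).2)` of `X`.

PROOF.
(0) If `h⁻¹ * h' ∈ B j` then `ue j h = ue j h'` (`B j` fixes `pe j`).  For adjacent `x, y ∈ W` the
edge `((st x y).1, g * (st x y).2.1)` lies above `s(g • x, g • y)` (`T.stp`).
(1) STABILITY: for every edge `(j, h)` there is `N` with `UU n j h = UU N j h` for all `n ≥ N`.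
Well-founded induction (`hM.wf`) on `ue j h`: if `(j, h)` is not matched, `N = 0` (`UU_zero`).  If it
is matched by `m = (g, x, y, l, σ)` then `ue j h = s(g • x, g • y)`, and for every
`e ∈ (cyc (x :: y :: l)).tail` the edge of the step `g • st e.1 e.2` lies above
`s(g • e.1, g • e.2)`, which is below `ue j h` (`cyc_map`; `M (g • x) (g • y) (g • l)`).  Let `N'` be
larger than the numbers for these finitely many edges; `N = N' + 1` works: for `n ≥ N' + 1`
`UU_match` determines `UU n j h` (up to `lab1`, which is injective in the value) from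
`rst (UU (n-1))`, which is equal to `rst (UU N')`.
(2) Choose `N j h` and put `u j h = UU (N j h) j h`.  It is invariant: for `n` large
`u j h = UU n j h = UU n j (h * b) = u j (h * b)`; and for every finite set of edges there is `n₀`
such that `u = UU n` on these edges for all `n ≥ n₀`.
(3) COCYCLE: let `c ∈ C` be in `W` and `g : H`.  `c' = c.map (g • ·) ∈ C` (`cell`); by `hM.all` there
are `M x y l` with `x :: y :: l` a rotation of `c'` or of `c'.reverse`.  Put
`x₀ = g⁻¹ • x`, `y₀ = g⁻¹ • y`, `l₀ = l.map (g⁻¹ • ·)`: `x₀ :: y₀ :: l₀ ∈ C` (`hM.mem`, `cell`), it is a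
rotation of `c` or of `c.reverse`, and its vertices are in `W`.  The edge of the step `g • st x₀ y₀`
is matched by `(g, x₀, y₀, l₀, σ)`; `UU_match` for large `n` says that
`((cyc (x₀ :: y₀ :: l₀)).map fun e => lab1 u g (T.st e.1 e.2)).prod = 1`.  Now use `prod_rot` and
`prod_rev` with `F a b = lab1 u g (T.st a b)`; `T.rev` gives `F b a = (F a b)⁻¹`.  Finally `lab_prod`.
(4) UNIVERSALITY: `UU_univ`.
-/

set_option autoImplicit false

namespace Pool.Agent.HC2

open Pool.Agent.HC

variable {H : Type} [Group H] {V : Type} [MulAction H V] {X : SimpleGraph V} {W : Set V}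

/-- the edge of `X` below the edge `(j, h)` -/
def UniB_ue (T : Lft H V X W) (j : T.D.J) (h : H) : Sym2 V := s(h • (T.pe j).1, h • (T.pe j).2)

theorem UniB_ue_eq (T : Lft H V X W) {j : T.D.J} {h h' : H} (hb : h⁻¹ * h' ∈ T.D.B j) :
    UniB_ue T j h = UniB_ue T j h' := by
  have h1 := T.Bfix j _ hb
  rw [mul_smul, inv_smul_eq_iff] at h1
  have h2 : h' • (T.pe j).1 = h • (T.pe j).1 := congrArg Prod.fst h1
  have h3 : h' • (T.pe j).2 = h • (T.pe j).2 := congrArg Prod.snd h1
  unfold UniB_ue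
  rw [h2, h3]

theorem UniB_ue_st (T : Lft H V X W) {x y : V} (hx : x ∈ W) (hy : y ∈ W) (hxy : X.Adj x y) (g : H) :
    UniB_ue T (T.st x y).1 (g * (T.st x y).2.1) = s(g • x, g • y) := by
  have h1 := T.stp x hx y hy hxy
  unfold UniB_ue
  rw [mul_smul, mul_smul]
  split_ifs at h1 with h2
  · have h3 : (T.st x y).2.1 • (T.pe (T.st x y).1).1 = x := congrArg Prod.fst h1
    have h4 : (T.st x y).2.1 • (T.pe (T.st x y).1).2 = y := congrArg Prod.snd h1
    rw [h3, h4]
  · have h3 : (T.st x y).2.1 • (T.pe (T.st x y).1).1 = y := congrArg Prod.fst h1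
    have h4 : (T.st x y).2.1 • (T.pe (T.st x y).1).2 = x := congrArg Prod.snd h1
    rw [h3, h4, Sym2.eq_swap]

theorem UniB_lab_congr {T : Lft H V X W} {Q : Type} [Group Q] {f f' : T.D.J → H → Q} {g : H}
    {s : Stp T.D} (h : f s.1 (g * s.2.1) = f' s.1 (g * s.2.1)) : lab1 f g s = lab1 f' g s := by
  unfold lab1
  rw [h]

theorem UniB_lab_inj {T : Lft H V X W} {Q : Type} [Group Q] {f f' : T.D.J → H → Q} {g : H}
    {s : Stp T.D} (h : lab1 f g s = lab1 f' g s) : f s.1 (g * s.2.1) = f' s.1 (g * s.2.1) := by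
  unfold lab1 at h
  split_ifs at h
  · exact h
  · exact inv_injective h

theorem UniB_rev (T : Lft H V X W) {Q : Type} [Group Q] (f : T.D.J → H → Q) (g : H) {x y : V}
    (hx : x ∈ W) (hy : y ∈ W) (hxy : X.Adj x y) :
    lab1 f g (T.st y x) = (lab1 f g (T.st x y))⁻¹ := by
  rw [T.rev x hx y hy hxy]
  unfold lab1
  simp only
  cases (T.st x y).2.2 <;> simp

/-- stability on finitely many edges -/
theorem UniB_fin {ι A : Type} (F : ℕ → ι → A) (L : List ι)
    (h : ∀ e ∈ L, ∃ N, ∀ n, N ≤ n → F n e = F N e) :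
    ∃ N, ∀ e ∈ L, ∀ n, N ≤ n → F n e = F N e := by
  induction L with
  | nil => exact ⟨0, fun e he => absurd he List.not_mem_nil⟩
  | cons a L ih =>
    obtain ⟨N, hN⟩ := ih fun e he => h e (List.mem_cons_of_mem _ he)
    obtain ⟨N', hN'⟩ := h a List.mem_cons_self
    refine ⟨max N N', ?_⟩
    intro e he n hn
    rcases List.mem_cons.1 he with he | he
    · rw [he, hN' n (le_trans (le_max_right _ _) hn), hN' (max N N') (le_max_right _ _)]
    · rw [hN e he n (le_trans (le_max_left _ _) hn), hN e he (max N N') (le_max_left _ _)]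

theorem UniB_tail (x y : V) (l : List V) :
    cyc (x :: y :: l) = (x, y) :: (cyc (x :: y :: l)).tail := by
  rw [cyc_cons]
  rfl

theorem UniB_stab {C : Set (List V)} {M : V → V → List V → Prop} (hM : IsMatching C M)
    (path : ∀ c ∈ C, ∀ e ∈ cyc c, X.Adj e.1 e.2) (T : Lft H V X W) (hT : CReq C T) :
    ∀ (e : Sym2 V) (j : T.D.J) (h : H), UniB_ue T j h = e →
      ∃ N, ∀ n, N ≤ n → UU C M T n j h = UU C M T N j h := by
  intro e
  refine hM.wf.induction (C := fun e => ∀ (j : T.D.J) (h : H), UniB_ue T j h = e →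
      ∃ N, ∀ n, N ≤ n → UU C M T n j h = UU C M T N j h) e ?_
  intro e ih j h he
  by_cases hex : ∃ m, Mt C M T j h m
  · obtain ⟨⟨g, x, y, l, σ⟩, hmt⟩ := hex
    have hmt' := hmt
    obtain ⟨hC, hW, hMM, hj, hσ, hB⟩ := hmt'
    simp only at hC hW hMM hj hσ hB
    subst hj
    have hadj : ∀ d ∈ cyc (x :: y :: l), X.Adj d.1 d.2 := path _ hC
    have hxy : X.Adj x y := by
      have h1 : (x, y) ∈ cyc (x :: y :: l) := by
        rw [UniB_tail]
        exact List.mem_cons_self
      exact hadj _ h1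
    have hx : x ∈ W := hW x (by simp)
    have hy : y ∈ W := hW y (by simp)
    have hee : e = s(g • x, g • y) := by
      rw [← he, UniB_ue_eq T hB, UniB_ue_st T hx hy hxy]
    have h1 : ∀ d ∈ (cyc (x :: y :: l)).tail, ∃ N, ∀ n, N ≤ n →
        UU C M T n (T.st d.1 d.2).1 (g * (T.st d.1 d.2).2.1) =
          UU C M T N (T.st d.1 d.2).1 (g * (T.st d.1 d.2).2.1) := by
      intro d hd
      have hd' : d ∈ cyc (x :: y :: l) := List.mem_of_mem_tail hd
      have hm := mem_cyc hd'
      refine ih s(g • d.1, g • d.2) ?_ _ _ (UniB_ue_st T (hW _ hm.1) (hW _ hm.2) (hadj _ hd') g)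
      refine ⟨g • x, g • y, l.map fun v => g • v, hMM, hee, (g • d.1, g • d.2), ?_, rfl⟩
      have h2 : g • x :: g • y :: (l.map fun v => g • v) = (x :: y :: l).map fun v => g • v := rfl
      rw [h2, cyc_map, ← List.map_tail]
      exact List.mem_map.2 ⟨d, hd, rfl⟩
    obtain ⟨N, hN⟩ := UniB_fin
      (fun n (d : V × V) => UU C M T n (T.st d.1 d.2).1 (g * (T.st d.1 d.2).2.1)) _ h1
    have hinv : ∀ n, UU C M T n (T.st x y).1 h = UU C M T n (T.st x y).1 (g * (T.st x y).2.1) := by
      intro n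
      rw [← UU_inv C M T n _ h _ hB]
      congr 1
      group
    refine ⟨N + 1, ?_⟩
    intro n hn
    obtain ⟨n', rfl⟩ : ∃ n', n = n' + 1 := ⟨n - 1, by omega⟩
    have e1 := UU_match hM path T hT n' _ h g x y l σ hmt
    have e2 := UU_match hM path T hT N _ h g x y l σ hmt
    have e3 : rst T (UU C M T n') g x y l = rst T (UU C M T N) g x y l := by
      unfold rst
      congr 1
      refine List.map_congr_left ?_
      intro d hd
      exact UniB_lab_congr (hN d hd n' (by omega))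
    rw [e3, ← e2, mul_left_inj] at e1
    rw [hinv, hinv]
    exact UniB_lab_inj e1
  · refine ⟨0, ?_⟩
    intro n _
    rw [UU_zero C M T n j h hex, UU_zero C M T 0 j h hex]

theorem exists_univ {H : Type} [Group H] {V : Type} [MulAction H V] {X : SimpleGraph V}
    {W : Set V} {C : Set (List V)} (path : ∀ c ∈ C, ∀ e ∈ cyc c, X.Adj e.1 e.2)
    (mt : ∃ M, IsMatching C M)
    (cell : ∀ (g : H), ∀ c ∈ C, (c.map fun x => g • x) ∈ C)
    (T : Lft H V X W) (hT : CReq C T) :
    ∃ (α : Type) (u : T.D.J → H → FreeGroup α), UnivF T.D (ccells C T) u := by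
  obtain ⟨M, hM⟩ := mt
  have hst := fun (j : T.D.J) (h : H) => UniB_stab hM path T hT _ j h rfl
  choose N hN using hst
  have hlab : ∀ (g : H) (L : List (V × V)), ∃ n₀, ∀ d ∈ L, ∀ n, n₀ ≤ n →
      lab1 (fun j h => UU C M T (N j h) j h) g (T.st d.1 d.2) = lab1 (UU C M T n) g (T.st d.1 d.2) := by
    intro g L
    obtain ⟨n₀, hn₀⟩ := UniB_fin
      (fun n (d : V × V) => UU C M T n (T.st d.1 d.2).1 (g * (T.st d.1 d.2).2.1)) L
      (fun d _ => ⟨_, hN _ _⟩)
    refine ⟨n₀, ?_⟩
    intro d hd n hn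
    apply UniB_lab_congr
    show UU C M T (N _ _) _ _ = _
    have e1 := hN (T.st d.1 d.2).1 (g * (T.st d.1 d.2).2.1)
      (max n₀ (N (T.st d.1 d.2).1 (g * (T.st d.1 d.2).2.1))) (le_max_right _ _)
    have e2 : UU C M T (max n₀ (N (T.st d.1 d.2).1 (g * (T.st d.1 d.2).2.1))) (T.st d.1 d.2).1
        (g * (T.st d.1 d.2).2.1) = UU C M T n₀ (T.st d.1 d.2).1 (g * (T.st d.1 d.2).2.1) :=
      hn₀ d hd _ (le_max_left _ _)
    have e3 : UU C M T n (T.st d.1 d.2).1 (g * (T.st d.1 d.2).2.1) =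
        UU C M T n₀ (T.st d.1 d.2).1 (g * (T.st d.1 d.2).2.1) := hn₀ d hd n hn
    rw [← e1, e2, e3]
  refine ⟨EE T, fun j h => UU C M T (N j h) j h, ⟨?_, ?_⟩, ?_⟩
  · intro j h b hb
    show UU C M T (N j (h * b)) j (h * b) = UU C M T (N j h) j h
    rw [← hN j (h * b) (max (N j (h * b)) (N j h)) (le_max_left _ _),
      ← hN j h (max (N j (h * b)) (N j h)) (le_max_right _ _)]
    exact UU_inv C M T _ j h b hb
  · rintro L ⟨c, hc, hcW, rfl⟩ g
    rw [lab_prod, List.map_map]
    obtain ⟨x, y, l, hMl, hrot⟩ := hM.all _ (cell g c hc)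
    have hgg : ∀ c : List V, (c.map fun v => g • v).map (fun v => g⁻¹ • v) = c := by
      intro c
      rw [List.map_map]
      have : ((fun v : V => g⁻¹ • v) ∘ fun v : V => g • v) = id := by
        funext v
        simp
      rw [this, List.map_id]
    have hm0 : g⁻¹ • x :: g⁻¹ • y :: (l.map fun v => g⁻¹ • v) = (x :: y :: l).map fun v => g⁻¹ • v := rfl
    have hC0 : g⁻¹ • x :: g⁻¹ • y :: (l.map fun v => g⁻¹ • v) ∈ C := cell g⁻¹ _ (hM.mem _ _ _ hMl)
    have hrot0 : (g⁻¹ • x :: g⁻¹ • y :: (l.map fun v => g⁻¹ • v)).IsRotated c ∨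
        (g⁻¹ • x :: g⁻¹ • y :: (l.map fun v => g⁻¹ • v)).IsRotated c.reverse := by
      rcases hrot with h1 | h1
      · left
        have h2 := h1.map fun v => g⁻¹ • v
        rw [hgg] at h2
        exact h2
      · right
        have h2 := h1.map fun v => g⁻¹ • v
        rw [← List.map_reverse, hgg] at h2
        exact h2
    have hW0 : ∀ v ∈ g⁻¹ • x :: g⁻¹ • y :: (l.map fun v => g⁻¹ • v), v ∈ W := by
      intro v hv
      rcases hrot0 with h1 | h1
      · exact hcW v (h1.mem_iff.1 hv)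
      · exact hcW v (List.mem_reverse.1 (h1.mem_iff.1 hv))
    have hg : ∀ v : V, g • g⁻¹ • v = v := fun v => smul_inv_smul g v
    have key : ((cyc (g⁻¹ • x :: g⁻¹ • y :: (l.map fun v => g⁻¹ • v))).map fun e =>
        lab1 (fun j h => UU C M T (N j h) j h) g (T.st e.1 e.2)).prod = 1 := by
      obtain ⟨n₀, hn₀⟩ := hlab g (cyc (g⁻¹ • x :: g⁻¹ • y :: (l.map fun v => g⁻¹ • v)))
      have hmt : Mt C M T (T.st (g⁻¹ • x) (g⁻¹ • y)).1 (g * (T.st (g⁻¹ • x) (g⁻¹ • y)).2.1)
          (g, g⁻¹ • x, g⁻¹ • y, (l.map fun v => g⁻¹ • v), (T.st (g⁻¹ • x) (g⁻¹ • y)).2.2) := by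
        refine ⟨hC0, hW0, ?_, rfl, rfl, ?_⟩
        · show M (g • g⁻¹ • x) (g • g⁻¹ • y) ((l.map fun v => g⁻¹ • v).map fun v => g • v)
          rw [hg, hg, List.map_map]
          have : ((fun v : V => g • v) ∘ fun v : V => g⁻¹ • v) = id := by
            funext v
            simp
          rw [this, List.map_id]
          exact hMl
        · show (g * _)⁻¹ * (g * _) ∈ _
          rw [inv_mul_cancel]
          exact one_mem _
      have h1 := UU_match hM path T hT n₀ _ _ g _ _ _ _ hmt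
      rw [UniB_tail, List.map_cons, List.prod_cons]
      rw [← h1]
      congr 1
      · refine hn₀ (g⁻¹ • x, g⁻¹ • y) ?_ (n₀ + 1) (by omega)
        rw [UniB_tail]
        exact List.mem_cons_self
      · unfold rst
        congr 1
        refine List.map_congr_left ?_
        intro d hd
        exact hn₀ d (List.mem_of_mem_tail hd) n₀ le_rfl
    show ((cyc c).map fun e => lab1 (fun j h => UU C M T (N j h) j h) g (T.st e.1 e.2)).prod = 1
    rcases hrot0 with h1 | h1
    · exact prod_rot (fun a b => lab1 (fun j h => UU C M T (N j h) j h) g (T.st a b)) h1 key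
    · have h2 := prod_rot (fun a b => lab1 (fun j h => UU C M T (N j h) j h) g (T.st a b)) h1 key
      have h3 := prod_rev (fun a b => lab1 (fun j h => UU C M T (N j h) j h) g (T.st a b))
        (c := c.reverse) ?_ h2
      · rw [List.reverse_reverse] at h3
        exact h3
      · intro e he
        have h4 := mem_cyc_reverse he
        have h5 : X.Adj e.2 e.1 := path c hc _ h4
        have h6 := mem_cyc h4
        exact UniB_rev T _ g (hcW _ h6.2) (hcW _ h6.1) h5.symm
  · intro Q _ f hf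
    obtain ⟨Λ, hΛ⟩ := UU_univ T f hf
    exact ⟨Λ, fun j h => hΛ _ j h⟩

end Pool.Agent.HC2
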