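import Pool.Agent.HC.PartI
import Pool.Agent.HC.Tele
import Pool.Agent.HC.OrbE
import Pool.Agent.HC.LftE
import Pool.Agent.HC.Wlk
import Pool.Agent.HC2.SC
import Pool.Agent.HC2.SqR
import Pool.Agent.HC2.UniB

/-!
# HC2 module OneS: the one step theorem without inversions (assembly, diff 3)

COPY `Pool/Agent/HC/OneS.lean` (import it or copy its auxiliary lemmas `OneS_case0`, `OneS_lab`,
`OneS_coc` under new names) AND ADAPT IT.  Changes:
* `W` is given by `exists_sc` (applied to `W₀`) instead of `exists_closed`; note that now the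
  coboundary is only available on `W₀`, so `lab_stw` has to be applied to a lift of `W` but with
  vertices in `W₀`: prove the variant of `lab_stw` (module `HC.Wlk`) in which `hG` and `hw` refer to
  `W₀` (the same induction; `Wlk_step` is available).
* `exists_creq` instead of `exists_sqreq`, `exists_univ` of `HC2.UniB` instead of that of `HC.UniB`.
* `partI` is applied with `𝒦 = ccells C T`: it is finite as the image of the finite set
  `cells_finite` (with the `M` of `hX.mt`), and an element `L = (cyc c).map st` is a closed path: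
  `c = x :: y :: l` (`hM.all` excludes the lists of length less than two), and by induction on lists
  `Chn (vx a) (((a :: l).zip (l ++ [z])).map st) (vx z)` if all these vertices are in `W` and
  consecutive ones are adjacent (`T.chn`, `chn_left`, `sameV_trans`).
* the hypotheses of the coboundary for `F a b = lab1 f 1 (T.st a b)`: `T.rev`, and `lab_prod` with
  `hf'.2 _ ⟨c, hc, hcW, rfl⟩ 1`.
-/

set_option autoImplicit false

namespace Pool.Agent.HC2

open Pool.Agent.HC

theorem OneS_c0 {G : Type} [Group G] {V : Type} [MulAction G V] (X : SimpleGraph V)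
    (hc : X.Connected) (p : V) (hp : ¬ ∃ q, X.Adj p q) (g : G) (v : V) : g • v = v := by
  have h1 : ∀ v, v = p := by
    intro v
    obtain ⟨w⟩ := hc.preconnected p v
    cases w with
    | nil => rfl
    | cons h _ => exact absurd ⟨_, h⟩ hp
  rw [h1 v, h1 (g • p)]

theorem OneS_lb {H : Type} [Group H] {D : GG H} {Q : Type} [Group Q] (u : D.J → H → Q) (g : H)
    (L : List (Stp D)) (h : H) :
    lab (D := D) (fun j x => u j (g * x)) h L = lab u (g * h) L := by
  induction L with
  | nil => rfl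
  | cons s L ih =>
    rw [lab, lab, ih]
    congr 1
    unfold lab1
    simp only [mul_assoc]

theorem OneS_cc {H : Type} [Group H] {D : GG H} {𝒦 : Set (List (Stp D))} {Q : Type} [Group Q]
    {u : D.J → H → Q} (hu : Coc D 𝒦 u) (g : H) : Coc D 𝒦 (fun j x => u j (g * x)) := by
  refine ⟨?_, ?_⟩
  · intro j h b hb
    show u j (g * (h * b)) = u j (g * h)
    rw [← mul_assoc]
    exact hu.1 j (g * h) b hb
  · intro L hL h
    rw [OneS_lb]
    exact hu.2 L hL (g * h)

theorem OneS_stw {H : Type} [Group H] {V : Type} [MulAction H V] {X : SimpleGraph V} {W : Set V}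
    (T : Lft H V X W) {Q : Type} [Group Q] (f : T.D.J → H → Q) (hf : InvF T.D f)
    (G : V → Q) (g : H) (W₀ : Set V)
    (hG : ∀ x ∈ W₀, ∀ y ∈ W₀, X.Adj x y → lab1 f 1 (T.st x y) = (G x)⁻¹ * G y)
    (hadj : ∀ (g : H) (x y : V), X.Adj x y → X.Adj (g • x) (g • y)) {x y : V} (w : X.Walk x y)
    (hw : ∀ v ∈ w.support, g • v ∈ W₀) (hreq : ∀ d ∈ w.darts, T.Req g d.fst d.snd) :
    lab f g (stw T w) = (G (g • x))⁻¹ * G (g • y) := by
  induction w with
  | nil =>
    show (1 : Q) = _
    rw [inv_mul_cancel]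
  | @cons x y z h w ih =>
    have hx : g • x ∈ W₀ := hw x (by simp)
    have hw' : ∀ v ∈ w.support, g • v ∈ W₀ := fun v hv => hw v (by
      rw [SimpleGraph.Walk.support_cons]
      exact List.mem_cons_of_mem _ hv)
    have hy : g • y ∈ W₀ := hw' y (by simp)
    have hr : T.Req g x y := hreq ⟨(x, y), h⟩ (by simp)
    have hreq' : ∀ d ∈ w.darts, T.Req g d.fst d.snd := fun d hd => hreq d (by
      rw [SimpleGraph.Walk.darts_cons]
      exact List.mem_cons_of_mem _ hd)
    show lab1 f g (T.st x y) * lab f g (stw T w) = _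
    rw [ih hw' hreq', Wlk_step T f hf g x y hr, hG _ hx _ hy (hadj g x y h)]
    group

/-- lifts of paths given as lists -/
theorem OneS_chn {H : Type} [Group H] {V : Type} [MulAction H V] {X : SimpleGraph V} {W : Set V}
    (T : Lft H V X W) (z : V) (hz : z ∈ W) (l : List V) : ∀ a : V, a ∈ W → (∀ x ∈ l, x ∈ W) →
    (∀ e ∈ (a :: l).zip (l ++ [z]), X.Adj e.1 e.2) →
      Chn T.D (T.vx a) (((a :: l).zip (l ++ [z])).map fun e => T.st e.1 e.2) (T.vx z) := by
  induction l with
  | nil =>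
    intro a ha _ he
    exact T.chn a ha z hz (he (a, z) (by simp))
  | cons b l ih =>
    intro a ha hl he
    have hb : b ∈ W := hl b (by simp)
    have h1 := T.chn a ha b hb (he (a, b) (by simp))
    have h2 := ih b hb (fun x hx => hl x (by simp [hx])) (fun e he' => he e (by
      rw [List.cons_append, List.zip_cons_cons]
      exact List.mem_cons_of_mem _ he'))
    rw [List.cons_append, List.zip_cons_cons, List.map_cons]
    exact ⟨h1.1, chn_left T.D h1.2 h2⟩

theorem OneS_cyc {V : Type} (a : V) (l : List V) : cyc (a :: l) = (a :: l).zip (l ++ [a]) := by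
  unfold cyc
  rw [List.rotate_cons_succ, List.rotate_zero]

theorem oneStep2 {G : Type} [Group G] {V : Type} [MulAction G V] (X : SimpleGraph V)
    (C : Set (List V)) (hX : CxAct G V X C)
    (hinv : ∀ (g : G) (x y : V), X.Adj x y → g • x = y → g • y ≠ x)
    (hst : ∀ v : V, ∀ K : Subgroup G, K.FG → (∀ g ∈ K, g • v = v) →
      Group.IsFinitelyPresented K)
    (hG : IsFP2 G) : Group.IsFinitelyPresented G := by
  classical
  obtain ⟨n, f₀, hf, S, hS, hR⟩ := hG
  obtain ⟨p⟩ := hX.conn.nonempty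
  by_cases hq : ∃ q, X.Adj p q
  swap
  · have h1 : (⊤ : Subgroup G).FG := by
      exact Group.fg_def.1 (Group.fg_of_surjective hf)
    have h2 := hst p ⊤ h1 (fun g _ => OneS_c0 X hX.conn p hq g p)
    exact Group.IsFinitelyPresented.equiv (Subgroup.topEquiv (G := G))
  obtain ⟨q, hpq⟩ := hq
  obtain ⟨c⟩ := exists_orb X hX.adj hinv p
  have hw : ∀ k : Fin n, Nonempty (X.Walk p (f₀ (FreeGroup.of k) • p)) :=
    fun k => hX.conn.preconnected p _
  let w : ∀ k : Fin n, X.Walk p (f₀ (FreeGroup.of k) • p) := fun k => (hw k).some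
  obtain ⟨Good, hGood, htele⟩ := tele f₀ S hS
  let W₀ : Set V := {p, q} ∪ (⋃ k : Fin n, {v | v ∈ (w k).support}) ∪
    ⋃ x ∈ Good, (fun v => x.1 • v) '' {v | v ∈ (w x.2).support}
  have hW₀fin : W₀.Finite := by
    refine Set.Finite.union (Set.Finite.union (Set.toFinite _) ?_) ?_
    · exact Set.finite_iUnion fun k => List.finite_toSet _
    · exact hGood.biUnion fun x _ => (List.finite_toSet _).image _
  obtain ⟨W, hW, hW₀, hWc⟩ := exists_sc X C hX.conn hX.sc hX.path W₀ hW₀fin
  have hpW : p ∈ W := hW₀ (Or.inl (Or.inl (Or.inl rfl)))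
  have hqW : q ∈ W := hW₀ (Or.inl (Or.inl (Or.inr rfl)))
  have hwW : ∀ k, ∀ v ∈ (w k).support, v ∈ W := fun k v hv =>
    hW₀ (Or.inl (Or.inr (Set.mem_iUnion.2 ⟨k, hv⟩)))
  have hgW₀ : ∀ g k, (g, k) ∈ Good → ∀ v ∈ (w k).support, g • v ∈ W₀ := fun g k hgk v hv =>
    Or.inr (Set.mem_iUnion₂.2 ⟨(g, k), hgk, ⟨v, hv, rfl⟩⟩)
  have hgW : ∀ g k, (g, k) ∈ Good → ∀ v ∈ (w k).support, g • v ∈ W := fun g k hgk v hv =>
    hW₀ (hgW₀ g k hgk v hv)
  obtain ⟨𝓡₁, h𝓡₁, h𝓡₁', hcr⟩ := exists_creq (X := X) hX.path hX.mt hX.cell hX.slender W hW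
  let 𝓡 : Set (G × V × V) := 𝓡₁ ∪ ⋃ x ∈ Good,
    (fun e : X.Dart => (x.1, e.fst, e.snd)) '' {e | e ∈ (w x.2).darts}
  have h𝓡 : 𝓡.Finite :=
    h𝓡₁.union (hGood.biUnion fun x _ => (List.finite_toSet _).image _)
  have h𝓡' : ∀ g x y, (g, x, y) ∈ 𝓡 → x ∈ W ∧ y ∈ W ∧ g • x ∈ W ∧ g • y ∈ W ∧ X.Adj x y := by
    intro g x y h
    rcases h with h | h
    · exact h𝓡₁' g x y h
    · obtain ⟨⟨g', k⟩, hgk, e, he, hee⟩ := Set.mem_iUnion₂.1 h
      simp only [Prod.mk.injEq] at hee
      obtain ⟨rfl, rfl, rfl⟩ := hee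
      have h1 := SimpleGraph.Walk.dart_fst_mem_support_of_mem_darts (w k) he
      have h2 := SimpleGraph.Walk.dart_snd_mem_support_of_mem_darts (w k) he
      exact ⟨hwW k _ h1, hwW k _ h2, hgW _ k hgk _ h1, hgW _ k hgk _ h2, e.adj⟩
  let 𝓔 : Set G := Set.range fun k : Fin n => f₀ (FreeGroup.of k)
  obtain ⟨T, hT, i₀, hi₀, hE⟩ := exists_lft hX.adj c W hW hpW ⟨p, hpW, q, hqW, hpq⟩ 𝓡 h𝓡 h𝓡'
    𝓔 (Set.finite_range _) (by
      rintro _ ⟨k, rfl⟩
      exact hwW k _ (SimpleGraph.Walk.end_mem_support _))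
  have hT' : CReq C T := hcr T (fun g x y h => hT g x y (Or.inl h))
  obtain ⟨α, u, hu⟩ := exists_univ hX.path hX.mt hX.cell T hT'
  obtain ⟨M, hM⟩ := hX.mt
  refine partI T.D T.finI T.finJ (fun i => hst (T.pv i) (T.D.A i) (T.Afg i) (T.Afix i)) T.Bfg
    (ccells C T) ?_ ?_ u hu f₀ hf (S : Set (FreeGroup (Fin n))) hS hR i₀ (fun k => stw T (w k)) ?_ ?_
  · -- finitely many cells
    refine Set.Finite.subset ((cells_finite hM hW).image
      (fun c : List V => (cyc c).map fun e => T.st e.1 e.2)) ?_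
    rintro L ⟨c, hc, hcW, rfl⟩
    exact ⟨c, ⟨hc, hcW⟩, rfl⟩
  · -- cells are closed
    rintro L ⟨c, hc, hcW, rfl⟩
    cases c with
    | nil => exact ⟨T.vx p, sameV_refl _ _⟩
    | cons a l =>
      have ha : a ∈ W := hcW a (by simp)
      have h1 := hX.path _ hc
      rw [OneS_cyc] at h1 ⊢
      exact ⟨T.vx a, OneS_chn T a ha l a ha (fun x hx => hcW x (by simp [hx])) h1⟩
  · -- the paths
    intro k
    have h1 := chn_stw T (w k) (hwW k)
    rw [hi₀] at h1
    exact chn_right T.D h1 (hE _ ⟨k, rfl⟩)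
  · intro s hs g
    have hf' := OneS_cc hu.1 g
    set f : T.D.J → G → FreeGroup α := fun j x => u j (g * x) with hfd
    obtain ⟨G₀, hG₀⟩ := hWc (FreeGroup α) (fun x y => lab1 f 1 (T.st x y))
      (by
        intro x hx y hy hxy
        have h1 := T.rev x hx y hy hxy
        show lab1 f 1 (T.st y x) = (lab1 f 1 (T.st x y))⁻¹
        rw [h1]
        unfold lab1
        cases (T.st x y).2.2
        · simp
        · simp)
      (by
        intro c hc hcW
        have h5 := hf'.2 _ ⟨c, hc, hcW, rfl⟩ 1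
        rw [lab_prod, List.map_map] at h5
        exact h5)
    have h6 := htele (FreeGroup α) (fun k h => lab f h (stw T (w k))) (fun h => G₀ (h • p))
      (by
        intro g' k hgk
        have h7 := OneS_stw T f hf'.1 G₀ g' W₀ hG₀ hX.adj (w k) (hgW₀ g' k hgk)
          (fun e he => hT g' e.fst e.snd
            (Or.inr (Set.mem_iUnion₂.2 ⟨(g', k), hgk, ⟨e, he, rfl⟩⟩)))
        show lab f g' (stw T (w k)) = (G₀ (g' • p))⁻¹ * G₀ ((g' * f₀ (FreeGroup.of k)) • p)
        rw [h7, mul_smul]) s hs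
    have h8 : (fun (k : Fin n) (h : G) => lab f h (stw T (w k))) =
        fun k h => (fun (k : Fin n) (h : G) => lab u h (stw T (w k))) k (g * h) := by
      funext k h
      exact OneS_lb u g _ h
    rw [h8] at h6
    have h9 := crs_shift f₀ (fun (k : Fin n) (h : G) => lab u h (stw T (w k))) g s 1
    rw [mul_one] at h9
    rw [← h9]
    exact h6

end Pool.Agent.HC2
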