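import Pool.Agent.HC2.SubA

/-!
# HC2 module SubB: matching of the subdivision (diff 3)

PROOF.  Put `M' a b L := ∃ x y l, M x y l ∧ a :: b :: L = sbd X (x :: y :: l)`; so `a = inl x`,
`b = mid x y` (`cyc_cons`), and `x, y` are adjacent (`path`, `mem`), `b = inr ⟨s(x, y), _⟩`.
* `mem`: clear.
* `all`: `c' = sbd c`, and `x :: y :: l` is a rotation of `c` or of `c.reverse`.
  (a) `sbd (c.rotate n)` is a rotation of `sbd c`: `cyc (c.rotate n) = (cyc c).rotate n`
  (`cyc_rotate`), and the `flatMap` of a rotated list is a rotation of the `flatMap` (write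
  `c = u ++ v`, `rotate = v ++ u`; `List.IsRotated` of `A ++ B` and `B ++ A`).
  (b) `sbd c.reverse` is a rotation of `(sbd c).reverse` if consecutive vertices of `c` are
  adjacent: with `cyc c.reverse` = rotation of the list `(cyc c).reverse.map swap` (this is proved in
  `Lst` or is easy: it is `cyc_rotate`-like; or by `mem`...), and
  `(flatMap of [inl e.1, mid e.1 e.2]).reverse` = `flatMap` of `[mid e.1 e.2, inl e.1]` over the
  reversed list, i.e. (with `e = (e.1, e.2)` replaced by its swap, `mid_comm`) the list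
  `[m_{m1}, x_m, m_{m-1,m}, x_{m-1}, …, m₁₂, x₁]`, which is the rotation of
  `[x_m, m_{m,m-1}, x_{m-1}, …, m₂₁, x₁, m_{1m}] = sbd c.reverse`.
* `inj`: `s(inl x, inr s(x, y)) = s(inl x', inr s(x', y'))` gives `x = x'` and `s(x, y) = s(x', y')`,
  so `hM.inj` applies.
* `wf`: call `e ∈ Sym2 V` BELOW `e'` if they are related by the relation of `hM.wf`.  Claim: for every
  edge `e` of `X` the two half edges `s(inl v, inr e)`, `v ∈ e`, are accessible for the new relation
  (everything which is not a half edge is not of the form `s(inl x, mid x y)` with `M x y l`, so it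
  is accessible because it has no predecessors).  Well-founded induction on `e` for `hM.wf`.
  (i) A half edge `s(inl v, inr e)` for which there are no `y, l` with `M v y l`, `e = s(v, y)`, has
  no predecessors.  (ii) Let `M x y l`, `e = s(x, y)`, `v = x`.  The predecessors are the other edges
  of `cyc (sbd (x :: y :: l))` (`cyc_sbd`; `x :: y :: l` is the only cell by `inj`): the half edge
  `s(mid x y, inl y)`, which is accessible by (i) (`M y y' l'` and `s(y, y') = s(x, y)` would give
  `x = y` by `hM.inj`), and the half edges of the edges `s(d.1, d.2)`,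
  `d ∈ (cyc (x :: y :: l)).tail`, which are below `e`, so accessible by induction.
-/

set_option autoImplicit false

namespace Pool.Agent.HC2

open Pool.Agent.HC

theorem SubB_flatMap_rot {α β : Type} (f : α → List β) (l : List α) (n : ℕ) :
    (l.flatMap f).IsRotated ((l.rotate n).flatMap f) := by
  rw [List.rotate_eq_drop_append_take_mod, List.flatMap_append]
  have h : l.flatMap f = (l.take (n % l.length)).flatMap f ++ (l.drop (n % l.length)).flatMap f := by
    rw [← List.flatMap_append, List.take_append_drop]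
  rw [h]
  exact List.isRotated_append

theorem SubB_rot {V : Type} (X : SimpleGraph V) {c c' : List V} (h : c.IsRotated c') :
    (sbd X c).IsRotated (sbd X c') := by
  obtain ⟨n, rfl⟩ := h
  unfold sbd
  rw [cyc_rotate]
  exact SubB_flatMap_rot _ _ _

/-- the subdivision of a path -/
noncomputable def SubB_S {V : Type} (X : SimpleGraph V) (w : V) : V → List V → List (SV X)
  | z, [] => [Sum.inl z, mid X z w]
  | z, y :: l => Sum.inl z :: mid X z y :: SubB_S X w y l

theorem SubB_S_eq {V : Type} (X : SimpleGraph V) (w : V) (l : List V) : ∀ z,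
    ((z :: l).zip (l ++ [w])).flatMap (fun e => [Sum.inl e.1, mid X e.1 e.2]) =
      SubB_S X w z l := by
  induction l with
  | nil => intro z; rfl
  | cons y l ih =>
    intro z
    show Sum.inl z :: mid X z y :: ((y :: l).zip (l ++ [w])).flatMap _ = _
    rw [ih y]
    rfl

theorem SubB_rot1 {α : Type} (x : α) (l : List α) : (x :: l).rotate 1 = l ++ [x] := by
  show (x :: l).rotate (0 + 1) = _
  rw [List.rotate_cons_succ, List.rotate_zero]

theorem SubB_cyc {V : Type} (x : V) (l : List V) : cyc (x :: l) = (x :: l).zip (l ++ [x]) := by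
  unfold cyc
  rw [SubB_rot1]

theorem SubB_sbd {V : Type} (X : SimpleGraph V) (x : V) (l : List V) :
    sbd X (x :: l) = SubB_S X x x l := by
  rw [← SubB_S_eq]
  unfold sbd
  rw [SubB_cyc]

theorem SubB_S_head {V : Type} (X : SimpleGraph V) (w z : V) (l : List V) :
    ∃ T, SubB_S X w z l = Sum.inl z :: T := by
  cases l with
  | nil => exact ⟨_, rfl⟩
  | cons y l => exact ⟨_, rfl⟩

theorem SubB_S_append {V : Type} (X : SimpleGraph V) (w y : V) (l : List V) : ∀ z,
    SubB_S X w z (l ++ [y]) = SubB_S X y z l ++ [Sum.inl y, mid X y w] := by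
  induction l with
  | nil => intro z; rfl
  | cons x l ih =>
    intro z
    show Sum.inl z :: mid X z x :: SubB_S X w x (l ++ [y]) = _
    rw [ih x]
    rfl

theorem SubB_S_rev {V : Type} (X : SimpleGraph V) (w : V) (l : List V) : ∀ z,
    (∀ e ∈ (z :: l).zip (l ++ [w]), mid X e.1 e.2 = mid X e.2 e.1) →
    (SubB_S X w z l ++ [Sum.inl w]).reverse = SubB_S X z w l.reverse ++ [Sum.inl z] := by
  induction l with
  | nil =>
    intro z h
    have h1 := h (z, w) (by simp)
    show [Sum.inl w, mid X z w, Sum.inl z] = [Sum.inl w, mid X w z, Sum.inl z]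
    simp only at h1
    rw [h1]
  | cons y l ih =>
    intro z h
    have h1 := h (z, y) (by simp)
    simp only at h1
    have h2 := ih y (fun e he => h e (by
      show e ∈ (z, y) :: (y :: l).zip (l ++ [w])
      exact List.mem_cons_of_mem _ he))
    show (Sum.inl z :: mid X z y :: (SubB_S X w y l ++ [Sum.inl w])).reverse = _
    rw [List.reverse_cons, List.reverse_cons, h2, List.reverse_cons, SubB_S_append, h1]
    simp

theorem SubB_rev {V : Type} (X : SimpleGraph V) {c : List V}
    (h : ∀ e ∈ cyc c, X.Adj e.1 e.2) : (sbd X c.reverse).IsRotated (sbd X c).reverse := by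
  cases c with
  | nil => exact List.IsRotated.refl _
  | cons x l =>
    have h1 : ((x :: l).reverse).IsRotated (x :: l.reverse) := by
      rw [List.reverse_cons]
      exact List.isRotated_append
    refine (SubB_rot X h1).trans ?_
    have h2 := SubB_S_rev X x l x (fun e he => mid_comm X (h e (by
      rw [SubB_cyc]
      exact he)))
    rw [SubB_sbd, SubB_sbd]
    obtain ⟨T, hT⟩ := SubB_S_head X x x l.reverse
    rw [hT, List.reverse_append] at h2
    simp only [List.reverse_cons, List.reverse_nil, List.nil_append, List.cons_append,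
      List.cons.injEq, true_and] at h2
    rw [h2, hT]
    exact ⟨1, SubB_rot1 _ _⟩

theorem SubB_cons {V : Type} (X : SimpleGraph V) (x y : V) (l : List V) :
    sbd X (x :: y :: l) = Sum.inl x :: mid X x y ::
      ((y :: l).zip (l ++ [x])).flatMap (fun e => [Sum.inl e.1, mid X e.1 e.2]) := by
  unfold sbd
  rw [cyc_cons]
  rfl

theorem SubB_mid {V : Type} (X : SimpleGraph V) {x y x' y' : V} (h : X.Adj x y) (h' : X.Adj x' y') :
    mid X x y = mid X x' y' → s(x, y) = s(x', y') := by
  intro e
  unfold mid at e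
  rw [dif_pos h, dif_pos h'] at e
  exact congrArg Subtype.val (Sum.inr.inj e)

theorem SubB_mid_inl {V : Type} (X : SimpleGraph V) {x y v : V} (h : X.Adj x y) :
    mid X x y ≠ Sum.inl v := by
  unfold mid
  rw [dif_pos h]
  exact Sum.inr_ne_inl

/-- comparison of two half edges -/
theorem SubB_half {V : Type} (X : SimpleGraph V) {v x y x' y' : V} (h : X.Adj x y)
    (h' : X.Adj x' y') (e : s((Sum.inl v : SV X), mid X x y) = s(Sum.inl x', mid X x' y')) :
    v = x' ∧ s(x, y) = s(x', y') := by
  rw [Sym2.eq_iff] at e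
  rcases e with ⟨e1, e2⟩ | ⟨e1, e2⟩
  · exact ⟨Sum.inl.inj e1, SubB_mid X h h' e2⟩
  · exact absurd e2 (SubB_mid_inl X h)

theorem sub_mt {V : Type} (X : SimpleGraph V) (C : Set (List V))
    (path : ∀ c ∈ C, ∀ e ∈ cyc c, X.Adj e.1 e.2) (mt : ∃ M, IsMatching C M) :
    ∃ M, IsMatching (sbd X '' C) M := by
  obtain ⟨M, hM⟩ := mt
  have hadj : ∀ x y l, M x y l → X.Adj x y := by
    intro x y l h
    have h1 := path _ (hM.mem x y l h) (x, y) (by rw [cyc_cons]; exact List.mem_cons_self)
    exact h1
  obtain ⟨M', hM'⟩ : ∃ M' : SV X → SV X → List (SV X) → Prop, M' = fun a b L =>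
      ∃ x y l, M x y l ∧ a :: b :: L = sbd X (x :: y :: l) := ⟨_, rfl⟩
  have hM'1 : ∀ a b L, M' a b L → ∃ x y l, M x y l ∧ a :: b :: L = sbd X (x :: y :: l) ∧
      a = Sum.inl x ∧ b = mid X x y := by
    intro a b L h
    rw [hM'] at h
    obtain ⟨x, y, l, h1, h2⟩ := h
    refine ⟨x, y, l, h1, h2, ?_⟩
    rw [SubB_cons] at h2
    simp only [List.cons.injEq] at h2
    exact ⟨h2.1, h2.2.1⟩
  have hinj : ∀ a b L a' b' L', M' a b L → M' a' b' L' → s(a, b) = s(a', b') →
      a = a' ∧ b = b' ∧ L = L' := by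
    intro a b L a' b' L' h h' hs
    obtain ⟨x, y, l, h1, h2, h3, h4⟩ := hM'1 _ _ _ h
    obtain ⟨x', y', l', h1', h2', h3', h4'⟩ := hM'1 _ _ _ h'
    rw [h3, h4, h3', h4'] at hs
    obtain ⟨-, h5⟩ := SubB_half X (hadj _ _ _ h1) (hadj _ _ _ h1') hs
    obtain ⟨rfl, rfl, rfl⟩ := hM.inj _ _ _ _ _ _ h1 h1' h5
    rw [← h2'] at h2
    simp only [List.cons.injEq] at h2
    exact h2
  refine ⟨M', ?_, ?_, hinj, ?_⟩
  · intro a b L h
    obtain ⟨x, y, l, h1, h2, -, -⟩ := hM'1 _ _ _ h
    exact ⟨_, hM.mem _ _ _ h1, h2.symm⟩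
  · rintro _ ⟨c, hc, rfl⟩
    obtain ⟨x, y, l, h1, h2⟩ := hM.all c hc
    refine ⟨Sum.inl x, mid X x y,
      ((y :: l).zip (l ++ [x])).flatMap (fun e => [Sum.inl e.1, mid X e.1 e.2]), ?_, ?_⟩
    · rw [hM']
      exact ⟨x, y, l, h1, (SubB_cons X x y l).symm⟩
    · rw [← SubB_cons]
      rcases h2 with h2 | h2
      · exact Or.inl (SubB_rot X h2)
      · exact Or.inr ((SubB_rot X h2).trans (SubB_rev X (path c hc)))
  · obtain ⟨R', hR'⟩ : ∃ R' : Sym2 (SV X) → Sym2 (SV X) → Prop, R' = fun e e' =>
        ∃ x y l, M' x y l ∧ e' = s(x, y) ∧ ∃ d ∈ (cyc (x :: y :: l)).tail, e = s(d.1, d.2) :=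
      ⟨_, rfl⟩
    rw [← hR']
    have acc1 : ∀ E, (∀ x y l, M x y l → E = s(Sum.inl x, mid X x y) → Acc R' E) → Acc R' E := by
      intro E h
      by_cases hE : ∃ x y l, M x y l ∧ E = s(Sum.inl x, mid X x y)
      · obtain ⟨x, y, l, h1, h2⟩ := hE
        exact h x y l h1 h2
      · constructor
        intro E₁ hE₁
        exfalso
        rw [hR'] at hE₁
        obtain ⟨a, b, L, h1, h2, -⟩ := hE₁
        obtain ⟨x, y, l, h3, -, h4, h5⟩ := hM'1 _ _ _ h1
        exact hE ⟨x, y, l, h3, by rw [h2, h4, h5]⟩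
    have acc2 : ∀ e : Sym2 V, ∀ x y l, M x y l → e = s(x, y) →
        Acc R' s(Sum.inl x, mid X x y) := by
      intro e
      induction e using hM.wf.induction with
      | _ e ih =>
        intro x y l h he
        constructor
        intro E hE
        rw [hR'] at hE
        obtain ⟨a, b, L, h1, h2, d, hd, rfl⟩ := hE
        obtain ⟨x', y', l', h3, h4, h5, h6⟩ := hM'1 _ _ _ h1
        rw [h5, h6] at h2
        obtain ⟨-, h7⟩ := SubB_half X (hadj _ _ _ h) (hadj _ _ _ h3) h2
        obtain ⟨rfl, rfl, rfl⟩ := hM.inj _ _ _ _ _ _ h h3 h7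
        rw [h4, cyc_sbd, cyc_cons] at hd
        have hpath := path _ (hM.mem _ _ _ h)
        rw [cyc_cons] at hpath
        have hd' : d ∈ (mid X x y, (Sum.inl y : SV X)) :: ((y :: l).zip (l ++ [x])).flatMap
            (fun e => [(Sum.inl e.1, mid X e.1 e.2), (mid X e.1 e.2, Sum.inl e.2)]) := hd
        rw [List.mem_cons] at hd'
        rcases hd' with rfl | hd'
        · apply acc1
          intro x₁ y₁ l₁ g1 g2
          exfalso
          rw [Sym2.eq_swap] at g2
          obtain ⟨g3, g4⟩ := SubB_half X (hadj _ _ _ h) (hadj _ _ _ g1) g2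
          obtain ⟨rfl, rfl, rfl⟩ := hM.inj _ _ _ _ _ _ h g1 g4
          exact (hadj _ _ _ h).ne g3.symm
        · rw [List.mem_flatMap] at hd'
          obtain ⟨e₁, he₁, hd₁⟩ := hd'
          have ha : X.Adj e₁.1 e₁.2 := hpath e₁ (List.mem_cons_of_mem _ he₁)
          have hacc : ∀ v, Acc R' s((Sum.inl v : SV X), mid X e₁.1 e₁.2) := by
            intro v
            apply acc1
            intro x₁ y₁ l₁ g1 g2
            obtain ⟨g3, g4⟩ := SubB_half X ha (hadj _ _ _ g1) g2
            rw [g2]
            refine ih s(x₁, y₁) ⟨x, y, l, h, he, e₁, ?_, g4.symm⟩ x₁ y₁ l₁ g1 rfl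
            rw [cyc_cons]
            exact he₁
          simp only [List.mem_cons, List.not_mem_nil, or_false] at hd₁
          rcases hd₁ with rfl | rfl
          · exact hacc _
          · rw [Sym2.eq_swap]
            exact hacc _
    constructor
    intro E
    apply acc1
    intro x y l h1 h2
    rw [h2]
    exact acc2 _ x y l h1 rfl

end Pool.Agent.HC2
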