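import Pool.Agent.HC.FinIdx
import Pool.Agent.HC2.SubB
import Pool.Agent.HC2.OneS

/-!
# HC2 module SubC: the one step theorem, inversions allowed (assembly, diff 2)

PROOF.  Let `letI := sact X hX.adj`.  The group acts on the subdivision, and
`CxAct G (SV X) (SX X) (sbd X '' C)` holds: `sub_conn`, `sub_sc`, `sub_path`, `sub_mt`; `adj`: by
cases; `cell`: `sbd_map`; `slender`: if `K` fixes all the vertices of `sbd X c` then it fixes `inl x`
for all `x ∈ c` (`x` is a first component of an element of `cyc c`; `c` is not empty), so it fixes
`x`.  There are no inversions: adjacent vertices of the subdivision are of different kinds, which are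
preserved by the action.  Stabilizers: let `K` be a finitely generated subgroup fixing a vertex of the
subdivision.  If it is `inl v` then `K` fixes `v`: `hst`.  If it is `inr s(x, y)`, let
`K' = K ⊓ stabilizer x`: every `g ∈ K` maps `x` to `x` or `y`, so `K'` has index at most two in `K`
(as a subgroup of `K`: `(MulAction.stabilizer G x).subgroupOf K`, e.g. the orbit of `x` under `K` is
contained in the finite set `{x, y}`, `MulAction` orbit-stabilizer, or directly: two elements of `K`
not fixing `x` both map `x` to `y`, so they lie in the same coset).  It is finitely generated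
(subgroup of finite index), it fixes `x`, hence it is finitely presented by `hst`
(transport from `Subgroup K` to `Subgroup G` by `Subgroup.map K.subtype`), and `K` is finitely
presented by `fp_of_index`.  Apply `oneStep2`.
-/

set_option autoImplicit false

namespace Pool.Agent.HC2

open Pool.Agent.HC

theorem SubC_map {M L : Type} [Group M] [Group L] {K : Subgroup M} (h : K.FG) (f : M →* L) :
    (K.map f).FG := by
  have h1 : Group.FG K := (Group.fg_iff_subgroup_fg K).2 h
  have h2 : Group.FG (K.map f) := Group.fg_of_surjective (f := f.subgroupMap K)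
    (f.subgroupMap_surjective K)
  exact (Group.fg_iff_subgroup_fg _).1 h2

theorem SubC_mem {V : Type} (X : SimpleGraph V) {c : List V} {x : V} (hx : x ∈ c) :
    (Sum.inl x : SV X) ∈ sbd X c := by
  have h1 : (cyc c).map Prod.fst = c := by
    unfold cyc
    rw [List.map_fst_zip]
    rw [List.length_rotate]
  rw [← h1] at hx
  obtain ⟨e, he, rfl⟩ := List.mem_map.1 hx
  unfold sbd
  rw [List.mem_flatMap]
  exact ⟨e, he, by simp⟩

theorem SubC_act {G : Type} [Group G] {V : Type} [MulAction G V] (X : SimpleGraph V)
    (C : Set (List V)) (hX : CxAct G V X C) :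
    @CxAct G _ (SV X) (sact X hX.adj) (SX X) (sbd X '' C) := by
  letI act : MulAction G (SV X) := sact X hX.adj
  refine ⟨sub_conn X hX.conn, fun Q _ F h1 h2 => sub_sc X C hX.sc hX.path Q F h1 h2,
    sub_path X C hX.path, sub_mt X C hX.path hX.mt, ?_, ?_, ?_⟩
  · intro g a b hab
    rcases hab with ⟨v, e, rfl, rfl, hv⟩ | ⟨v, e, rfl, rfl, hv⟩
    · exact Or.inl ⟨g • v, _, rfl, rfl, Sym2.mem_map.2 ⟨v, hv, rfl⟩⟩
    · exact Or.inr ⟨g • v, _, rfl, rfl, Sym2.mem_map.2 ⟨v, hv, rfl⟩⟩
  · rintro g _ ⟨c, hc, rfl⟩
    exact ⟨c.map fun x => g • x, hX.cell g c hc, (sbd_map X hX.adj c (hX.path c hc) g).symm⟩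
  · rintro _ ⟨c, hc, rfl⟩ K hK
    refine hX.slender c hc K fun g hg x hx => ?_
    have h1 : g • (Sum.inl x : SV X) = Sum.inl x := hK g hg _ (SubC_mem X hx)
    exact Sum.inl_injective h1

theorem oneStep3 {G : Type} [Group G] {V : Type} [MulAction G V] (X : SimpleGraph V)
    (C : Set (List V)) (hX : CxAct G V X C)
    (hst : ∀ v : V, ∀ K : Subgroup G, K.FG → (∀ g ∈ K, g • v = v) →
      Group.IsFinitelyPresented K)
    (hG : IsFP2 G) : Group.IsFinitelyPresented G := by
  have hcx := SubC_act X C hX
  letI act : MulAction G (SV X) := sact X hX.adj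
  refine oneStep2 (SX X) (sbd X '' C) hcx ?_ ?_ hG
  · intro g a b hab h1 h2
    rcases hab with ⟨v, e, rfl, rfl, hv⟩ | ⟨v, e, rfl, rfl, hv⟩
    · exact Sum.inl_ne_inr h1
    · exact Sum.inl_ne_inr h2
  · intro a K hK hfix
    rcases a with v | ⟨e, he⟩
    · exact hst v K hK fun g hg => Sum.inl_injective (hfix g hg)
    · induction e using Sym2.ind with
      | _ x y =>
        have hFG : Group.FG K := (Group.fg_iff_subgroup_fg K).2 hK
        have horb : ∀ k : K, k • x = x ∨ k • x = y := by
          intro k
          have h1 := hfix k k.2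
          have h2 : (⟨Sym2.map (fun x => (k : G) • x) s(x, y), _⟩ : X.edgeSet) = ⟨s(x, y), he⟩ :=
            Sum.inr_injective h1
          have h3 := congrArg Subtype.val h2
          simp only [Sym2.map_mk, Sym2.eq_iff] at h3
          rcases h3 with ⟨h3, -⟩ | ⟨h3, -⟩
          · exact Or.inl h3
          · exact Or.inr h3
        have hfin : Finite (MulAction.orbit K x) := by
          refine Set.Finite.to_subtype (Set.Finite.subset (Set.toFinite {x, y}) ?_)
          rintro _ ⟨k, rfl⟩
          exact horb k
        have hq : Finite (K ⧸ MulAction.stabilizer K x) :=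
          Finite.of_equiv _ (MulAction.orbitEquivQuotientStabilizer K x)
        have hidx : (MulAction.stabilizer K x).FiniteIndex := Subgroup.finiteIndex_of_finite_quotient
        have hfg : Group.FG (MulAction.stabilizer K x) := inferInstance
        have hfg' : ((MulAction.stabilizer K x).map K.subtype).FG :=
          SubC_map ((Group.fg_iff_subgroup_fg _).1 hfg) K.subtype
        have h1 := hst x _ hfg' (by
          rintro _ ⟨k, hk, rfl⟩
          exact hk)
        have h2 : Group.IsFinitelyPresented (MulAction.stabilizer K x) :=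
          Group.IsFinitelyPresented.equiv
            ((MulAction.stabilizer K x).equivMapOfInjective K.subtype K.subtype_injective).symm
        exact fp_of_index _ hidx h2

end Pool.Agent.HC2
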