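import Pool.Agent.HC.Cls
import Pool.Agent.HC2.SubC
import Pool.Agent.HC2.Ext

/-!
# HC2 module Cls: the class `𝒦` (diff 2)

PROOF of `Cls_main`: as in `Pool/Agent/HC/Cls.lean` (`Cls_main` there; its auxiliary lemmas
`Cls_fp2_equiv`, `Cls_map`, `Cls_fin`, `Cls_hom_inj`, `Cls_coh_inj`, `Cls_self`, `Cls_FG` are
available).  New cases:
* `slender`: let `f : L →* G` be injective, `L` homologically coherent, `M ≤ L` finitely generated,
  `φ = f ∘ M.subtype : M →* G` (injective), `A' = A.comap φ`, a normal subgroup of `M`.  Every subgroup
  of `A'` is finitely generated (its image in `G` is contained in `A`).  `A'` embeds in `A`, so it is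
  coherent by induction (it is homologically coherent), hence finitely presented.  `M ⧸ A'` embeds
  in `G ⧸ A` and is homologically coherent: if `K ≤ M ⧸ A'` is finitely generated then its
  preimage `K'` in `M` is finitely generated (`A'` is finitely generated; lift generators), so of
  type `FP₂`, and `K ≃* K' ⧸ (A'.subgroupOf K')` is of type `FP₂` by `fp2_quot`.  So `M ⧸ A'` is
  coherent by induction, and it is finitely generated, hence finitely presented.  `fp_ext`.
* `act`: as `cube` there, with `CxAct M V X C` for the action through `φ`, and `oneStep3`.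
`act_fp`: `oneStep3` and `Cls_coh_inj`, `Cls_self`, as in `HC.Cls`.
-/

set_option autoImplicit false

namespace Pool.Agent.HC2

open Pool.Agent.HC

/-- The class `𝒦`: the smallest class of groups which contains all coherent groups and
* every group all of whose finitely generated subgroups embed in groups of the class,
* every group with a subgroup of finite index in the class,
* every group with a slender normal subgroup in the class (slender: all subgroups are finitely
  generated) such that the quotient is in the class,
* every group which acts on a simply connected 2-complex with a well-founded matching with vertex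
  stabilizers in the class and slender pointwise stabilizers of 2-cells (`CxAct`). -/
inductive ClassK : (G : Type) → Group G → Prop
  | coherent (G : Type) [i : Group G] : Coherent G → ClassK G i
  | locally (G : Type) [i : Group G] (K : Subgroup G → Type) [iK : ∀ L, Group (K L)]
      (f : ∀ L : Subgroup G, L →* K L) :
      (∀ L : Subgroup G, L.FG → Function.Injective (f L)) →
      (∀ L : Subgroup G, L.FG → ClassK (K L) (iK L)) → ClassK G i
  | finiteIndex (G : Type) [i : Group G] (N : Subgroup G) :
      N.FiniteIndex → ClassK N inferInstance → ClassK G i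
  | slender (G : Type) [i : Group G] (A : Subgroup G) [A.Normal] :
      (∀ K : Subgroup G, K ≤ A → K.FG) → ClassK A inferInstance →
      ClassK (G ⧸ A) inferInstance → ClassK G i
  | act (G : Type) [i : Group G] (V : Type) [MulAction G V] (X : SimpleGraph V)
      (C : Set (List V)) : CxAct G V X C →
      (∀ v : V, ClassK (MulAction.stabilizer G v) inferInstance) → ClassK G i

theorem Cls_fg_inj {M L : Type} [Group M] [Group L] {K : Subgroup M} (f : M →* L)
    (hf : Function.Injective f) (h : (K.map f).FG) : K.FG := by
  have h2 := Cls_FG h
  have h3 : Group.FG K := Group.fg_of_surjective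
    (f := (K.equivMapOfInjective f hf).symm.toMonoidHom)
    (K.equivMapOfInjective f hf).symm.surjective
  exact (Group.fg_iff_subgroup_fg K).1 h3

theorem Cls_quot_hom {M : Type} [Group M] (A : Subgroup M) [A.Normal]
    (hA : ∀ K : Subgroup M, K ≤ A → K.FG) (hM : HomCoherent M) : HomCoherent (M ⧸ A) := by
  intro K hK
  obtain ⟨T, hT⟩ := hK
  obtain ⟨S0, hS0⟩ : ∃ S0, S0 = Subgroup.closure ((fun q : M ⧸ A => Quotient.out q) '' (T : Set (M ⧸ A))) :=
    ⟨_, rfl⟩
  have hS0fg : S0.FG := by
    rw [hS0, Subgroup.fg_iff]
    exact ⟨_, rfl, T.finite_toSet.image _⟩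
  have hmap : S0.map (QuotientGroup.mk' A) = K := by
    rw [hS0, MonoidHom.map_closure, ← hT, Set.image_image]
    congr 1
    ext q
    simp
  have hK'e : K.comap (QuotientGroup.mk' A) = S0 ⊔ A := by
    rw [← hmap, Subgroup.comap_map_eq, QuotientGroup.ker_mk']
  have hK'fg : (K.comap (QuotientGroup.mk' A)).FG := by
    rw [hK'e]
    exact hS0fg.sup (hA A le_rfl)
  have h1 : IsFP2 (K.comap (QuotientGroup.mk' A)) := hM _ hK'fg
  have hsurj : Function.Surjective ((QuotientGroup.mk' A).subgroupComap K) :=
    MonoidHom.subgroupComap_surjective_of_surjective _ _ (QuotientGroup.mk'_surjective A)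
  have hkfg : (((QuotientGroup.mk' A).subgroupComap K).ker).FG := by
    apply Cls_fg_inj (K.comap (QuotientGroup.mk' A)).subtype (Subgroup.subtype_injective _)
    apply hA
    rintro _ ⟨g, hg, rfl⟩
    have h2 : (QuotientGroup.mk' A).subgroupComap K g = 1 := hg
    have h3 := congrArg Subtype.val h2
    exact (QuotientGroup.eq_one_iff _).1 h3
  exact Cls_fp2_equiv (QuotientGroup.quotientKerEquivOfSurjective _ hsurj) (fp2_quot _ hkfg h1)

theorem Cls_main (G : Type) (i : Group G) (hG : ClassK G i) : ∀ (L : Type) [Group L]
    (f : L →* G), Function.Injective f → HomCoherent L → Coherent L := by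
  induction hG with
  | coherent G h =>
    intro L _ f hf _
    exact Cls_coh_inj f hf h
  | locally G K f hf hK ih =>
    intro L _ f' hf' hL M hM
    have hM₀ : (M.map f').FG := Cls_map hM f'
    have hc : Coherent M := ih (M.map f') hM₀ M
      ((f (M.map f')).comp (M.equivMapOfInjective f' hf').toMonoidHom)
      ((hf (M.map f') hM₀).comp (M.equivMapOfInjective f' hf').injective)
      (Cls_hom_inj M.subtype M.subtype_injective hL)
    exact Cls_self hc (Cls_FG hM)
  | finiteIndex G N hN hK ih =>
    intro L _ f hf hL M hM
    have hMF := Cls_FG hM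
    have hφ : Function.Injective (f.comp M.subtype) := hf.comp M.subtype_injective
    have hfin : (N.comap (f.comp M.subtype)).FiniteIndex := Cls_fin hN _
    have hfg : Group.FG (N.comap (f.comp M.subtype)) := inferInstance
    have hc : Coherent (N.comap (f.comp M.subtype)) := by
      refine ih _ (((f.comp M.subtype).comp (N.comap (f.comp M.subtype)).subtype).codRestrict N
        fun x => x.2) ?_ ?_
      · intro x y hxy
        exact Subtype.ext (hφ (congrArg Subtype.val hxy))
      · exact Cls_hom_inj (M.subtype.comp (N.comap (f.comp M.subtype)).subtype)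
          (M.subtype_injective.comp (Subgroup.subtype_injective _)) hL
    exact fp_of_index _ hfin (Cls_self hc hfg)
  | slender G A hA hKA hKQ ihA ihQ =>
    intro L _ f hf hL M hM
    have hMF := Cls_FG hM
    have hφ : Function.Injective (f.comp M.subtype) := hf.comp M.subtype_injective
    have hML : HomCoherent M := Cls_hom_inj M.subtype M.subtype_injective hL
    have hsl : ∀ K : Subgroup M, K ≤ A.comap (f.comp M.subtype) → K.FG := by
      intro K hK
      exact Cls_fg_inj _ hφ (hA _ (Subgroup.map_le_iff_le_comap.2 hK))
    have hcA : Coherent (A.comap (f.comp M.subtype)) := by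
      refine ihA _ (((f.comp M.subtype).comp (A.comap (f.comp M.subtype)).subtype).codRestrict A
        fun x => x.2) ?_ ?_
      · intro x y hxy
        exact Subtype.ext (hφ (congrArg Subtype.val hxy))
      · exact Cls_hom_inj (A.comap (f.comp M.subtype)).subtype (Subgroup.subtype_injective _) hML
    have hfA : Group.IsFinitelyPresented (A.comap (f.comp M.subtype)) :=
      Cls_self hcA (Cls_FG (hsl _ le_rfl))
    have hcQ : Coherent (M ⧸ A.comap (f.comp M.subtype)) := by
      refine ihQ _ (QuotientGroup.map (A.comap (f.comp M.subtype)) A (f.comp M.subtype) le_rfl) ?_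
        (Cls_quot_hom _ hsl hML)
      rw [injective_iff_map_eq_one]
      intro q
      induction q using QuotientGroup.induction_on with
      | H x =>
        intro hx
        rw [QuotientGroup.map_mk, QuotientGroup.eq_one_iff] at hx
        rw [QuotientGroup.eq_one_iff]
        exact hx
    exact fp_ext _ hfA (Cls_self hcQ inferInstance)
  | act G V X C hX hK ih =>
    intro L _ f hf hL M hM
    have hφ : Function.Injective (f.comp M.subtype) := hf.comp M.subtype_injective
    let act : MulAction M V := MulAction.compHom V (f.comp M.subtype)
    have hML : HomCoherent M := Cls_hom_inj M.subtype M.subtype_injective hL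
    have hact : CxAct M V X C := by
      refine ⟨hX.conn, hX.sc, hX.path, hX.mt, fun g x y h => hX.adj (f g) x y h,
        fun g c hc => hX.cell (f g) c hc, ?_⟩
      intro c hc K hK'
      apply Cls_fg_inj _ hφ
      refine hX.slender c hc _ ?_
      rintro _ ⟨g, hg, rfl⟩
      exact hK' g hg
    refine oneStep3 X C hact ?_ (hL M hM)
    intro v K hKfg hfix
    have hc : Coherent K := by
      refine ih v K (((f.comp M.subtype).comp K.subtype).codRestrict (MulAction.stabilizer G v)
        fun x => hfix x.1 x.2) ?_ (Cls_hom_inj K.subtype K.subtype_injective hML)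
      intro x y hxy
      exact Subtype.ext (hφ (congrArg Subtype.val hxy))
    exact Cls_self hc (Cls_FG hKfg)

theorem classK_coherent (G : Type) [i : Group G] (hG : ClassK G i) (h : HomCoherent G) :
    Coherent G :=
  Cls_main G i hG G (MonoidHom.id G) Function.injective_id h

theorem act_fp (G : Type) [Group G] (V : Type) [MulAction G V] (X : SimpleGraph V)
    (C : Set (List V)) (hX : CxAct G V X C)
    (hst : ∀ v : V, Coherent (MulAction.stabilizer G v))
    (hG : IsFP2 G) : Group.IsFinitelyPresented G := by
  refine oneStep3 X C hX ?_ hG
  intro v K hK hfix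
  have hc : Coherent K := by
    refine Cls_coh_inj (K.subtype.codRestrict (MulAction.stabilizer G v) fun x => hfix x.1 x.2) ?_
      (hst v)
    intro x y hxy
    have h1 : (x : G) = (y : G) :=
      congrArg (fun z : MulAction.stabilizer G v => (z : G)) hxy
    exact Subtype.ext h1
  exact Cls_self hc (Cls_FG hK)

end Pool.Agent.HC2
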