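import Pool.Agent.HC.Defs

/-!
# HC2: actions on simply connected 2-complexes with a well-founded matching -- definitions

A polygonal 2-complex is given by its 1-skeleton, a simple graph `X` on `V`, and a set `C` of closed
edge paths, the boundary paths of the 2-cells.  A closed path is a list of vertices
`[x₁, …, x_m]`; its edges are `(x₁, x₂), …, (x_{m-1}, x_m), (x_m, x₁)` (`cyc`).
* `IsMatching`: a matching of the 2-cells with edges in their boundaries, without infinite
  descending paths (a discrete Morse function without critical 2-cells);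
* `CxAct`: the hypotheses on an action;
* `Lft.ccells`, `Lft.CReq`: as in `HC.Defs`, for general cells.
-/

set_option autoImplicit false

namespace Pool.Agent.HC2

open Pool.Agent.HC

/-- The edges of the closed path `[x₁, …, x_m]`: `(x₁, x₂), …, (x_{m-1}, x_m), (x_m, x₁)`. -/
def cyc {V : Type} (c : List V) : List (V × V) := c.zip (c.rotate 1)

/-- A well-founded matching of the 2-cells with edges.  `M x y l` means: the 2-cell with the boundary
path `x, y, l` is matched with its edge `{x, y}`.  Every 2-cell is matched (its boundary path may be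
rotated or reversed), different 2-cells are matched with different edges, and there is no infinite
sequence of 2-cells in which the matched edge of each one is one of the other (not the matched) edges
of the preceding one. -/
structure IsMatching {V : Type} (C : Set (List V)) (M : V → V → List V → Prop) : Prop where
  mem : ∀ x y l, M x y l → x :: y :: l ∈ C
  all : ∀ c ∈ C, ∃ x y l, M x y l ∧
    ((x :: y :: l).IsRotated c ∨ (x :: y :: l).IsRotated c.reverse)
  inj : ∀ x y l x' y' l', M x y l → M x' y' l' → s(x, y) = s(x', y') → x = x' ∧ y = y' ∧ l = l'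
  wf : WellFounded fun e e' : Sym2 V => ∃ x y l, M x y l ∧ e' = s(x, y) ∧
    ∃ d ∈ (cyc (x :: y :: l)).tail, e = s(d.1, d.2)

/-- `G` acts by automorphisms on the connected and simply connected 2-complex `(X, C)`, which has a
well-founded matching (not assumed to be invariant), and the pointwise stabilizers of the 2-cells are
slender (all their subgroups are finitely generated).  Simple connectivity is expressed by: every
cocycle with values in a group is a coboundary. -/
structure CxAct (G : Type) [Group G] (V : Type) [MulAction G V] (X : SimpleGraph V)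
    (C : Set (List V)) : Prop where
  conn : X.Connected
  sc : ∀ (Q : Type) [Group Q] (F : V → V → Q), (∀ x y, X.Adj x y → F y x = (F x y)⁻¹) →
    (∀ c ∈ C, ((cyc c).map fun e => F e.1 e.2).prod = 1) →
      ∃ φ : V → Q, ∀ x y, X.Adj x y → F x y = (φ x)⁻¹ * φ y
  path : ∀ c ∈ C, ∀ e ∈ cyc c, X.Adj e.1 e.2
  mt : ∃ M, IsMatching C M
  adj : ∀ (g : G) (x y : V), X.Adj x y → X.Adj (g • x) (g • y)
  cell : ∀ (g : G), ∀ c ∈ C, (c.map fun x => g • x) ∈ C
  slender : ∀ c ∈ C, ∀ K : Subgroup G, (∀ g ∈ K, ∀ x ∈ c, g • x = x) → K.FG

/-- The closed paths of `D` which are lifts of the 2-cells in `W`. -/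
def ccells {H : Type} [Group H] {V : Type} [MulAction H V] {X : SimpleGraph V} {W : Set V}
    (C : Set (List V)) (T : Lft H V X W) : Set (List (Stp T.D)) :=
  {L | ∃ c ∈ C, (∀ x ∈ c, x ∈ W) ∧ L = (cyc c).map fun e => T.st e.1 e.2}

/-- The lifts of the 2-cells in `W` are compatible with the group action. -/
def CReq {H : Type} [Group H] {V : Type} [MulAction H V] {X : SimpleGraph V} {W : Set V}
    (C : Set (List V)) (T : Lft H V X W) : Prop :=
  ∀ c ∈ C, ∀ g : H, (∀ x ∈ c, x ∈ W ∧ g • x ∈ W) → ∀ e ∈ cyc c, T.Req g e.1 e.2

end Pool.Agent.HC2
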