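import Pool.Agent.HC2.Defs

/-!
# HC2 module Lst: closed paths as cyclic lists (diff 1)

* `cyc_cons`: `(x :: y :: l).rotate 1 = y :: l ++ [x]`.
* `mem_cyc`: `List.of_mem_zip`, `List.mem_rotate`.
* `cyc_map`: `List.map_rotate`, `List.zip_map'` / `List.zip_map`.
* `prod_rot`: `cyc (c.rotate n) = (cyc c).rotate n` (`List.zipWith_rotate_distrib`, `zip = zipWith`,
  commutativity of rotations), and the product of a rotated list is `1` iff the product of the list
  is `1` (conjugation; e.g. `List.prod_rotate_eq_one_of_prod_eq_one`).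
* `prod_rev`: with `c = [x₁, …, x_m]`, `cyc c.reverse = [(x_m, x_{m-1}), …, (x₂, x₁), (x₁, x_m)]` is the
  rotation by one of the list of the swapped elements of `(cyc c).reverse`; the product of the
  inverses in reverse order is the inverse of the product (`List.prod_inv_reverse`), then `prod_rot`.
-/

set_option autoImplicit false

namespace Pool.Agent.HC2

open Pool.Agent.HC

theorem cyc_cons {V : Type} (x y : V) (l : List V) :
    cyc (x :: y :: l) = (x, y) :: (y :: l).zip (l ++ [x]) := by
  unfold cyc
  simp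

theorem mem_cyc {V : Type} {c : List V} {e : V × V} (he : e ∈ cyc c) : e.1 ∈ c ∧ e.2 ∈ c := by
  unfold cyc at he
  have h := List.of_mem_zip he
  exact ⟨h.1, List.mem_rotate.1 h.2⟩

theorem cyc_map {V V' : Type} (f : V → V') (c : List V) :
    cyc (c.map f) = (cyc c).map fun e => (f e.1, f e.2) := by
  unfold cyc
  rw [← List.map_rotate, List.zip_map]
  rfl

theorem Lst_zip_rot {V W : Type} (l : List V) (l' : List W) (n : ℕ) (h : l.length = l'.length) :
    (l.zip l').rotate n = (l.rotate n).zip (l'.rotate n) := by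
  rw [List.zip_eq_zipWith, List.zip_eq_zipWith]
  exact List.zipWith_rotate_distrib _ l l' n h

theorem cyc_rotate {V : Type} (c : List V) (n : ℕ) : cyc (c.rotate n) = (cyc c).rotate n := by
  unfold cyc
  rw [Lst_zip_rot _ _ _ (List.length_rotate c 1).symm, List.rotate_rotate, List.rotate_rotate, add_comm]

theorem prod_rot {V Q : Type} [Group Q] (F : V → V → Q) {c c' : List V} (h : c.IsRotated c')
    (h1 : ((cyc c).map fun e => F e.1 e.2).prod = 1) :
    ((cyc c').map fun e => F e.1 e.2).prod = 1 := by
  obtain ⟨n, rfl⟩ := h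
  rw [cyc_rotate, List.map_rotate]
  exact List.prod_rotate_eq_one_of_prod_eq_one h1 n

theorem Lst_rev {V : Type} (c : List V) :
    cyc c.reverse = (((cyc c).map Prod.swap).reverse).rotate 1 := by
  have h1 : (c.rotate 1).reverse.rotate 1 = c.reverse := by
    rcases c with _ | ⟨x, l⟩
    · simp
    · simp
  have h2 : ((cyc c).map Prod.swap).reverse = (c.rotate 1).reverse.zip c.reverse := by
    unfold cyc
    rw [List.zip_swap, List.zip_eq_zipWith, List.zip_eq_zipWith, List.reverse_zipWith]
    exact List.length_rotate c 1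
  rw [h2, Lst_zip_rot _ _ _ (by simp), h1]
  rfl

theorem prod_rev {V Q : Type} [Group Q] (F : V → V → Q) {c : List V}
    (hF : ∀ e ∈ cyc c, F e.2 e.1 = (F e.1 e.2)⁻¹)
    (h1 : ((cyc c).map fun e => F e.1 e.2).prod = 1) :
    ((cyc c.reverse).map fun e => F e.1 e.2).prod = 1 := by
  rw [Lst_rev, List.map_rotate]
  apply List.prod_rotate_eq_one_of_prod_eq_one
  rw [List.map_reverse, List.map_map]
  have h2 : List.map ((fun e : V × V => F e.1 e.2) ∘ Prod.swap) (cyc c) =
      List.map (fun x => x⁻¹) (List.map (fun e : V × V => F e.1 e.2) (cyc c)) := by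
    rw [List.map_map]
    exact List.map_congr_left fun e he => hF e he
  rw [h2, ← List.prod_inv_reverse, h1, inv_one]

/-- edges of the reversed path -/
theorem mem_cyc_reverse {V : Type} {c : List V} {e : V × V} (he : e ∈ cyc c.reverse) :
    (e.2, e.1) ∈ cyc c := by
  rw [Lst_rev, List.mem_rotate, List.mem_reverse, List.mem_map] at he
  obtain ⟨e', h1, h2⟩ := he
  rw [← h2]
  exact h1

/-- edges of the rotated path -/
theorem mem_cyc_rot {V : Type} {c c' : List V} (h : c.IsRotated c') {e : V × V} (he : e ∈ cyc c) :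
    e ∈ cyc c' := by
  obtain ⟨n, rfl⟩ := h
  rw [cyc_rotate]
  exact List.mem_rotate.2 he

end Pool.Agent.HC2
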