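import Pool.Agent.HC.MedC
import Pool.Agent.HC.Triv
import Pool.Agent.HC2.Lst

/-!
# HC2 module MedD: CAT(0) cube complexes of dimension at most two (diff 2)

The cells are the lists `[x₁, x₂, x₃, x₄]` with `IsSq X x₁ x₂ x₃ x₄`.

PROOF.  Let `p` be a vertex (`hmed.conn.nonempty`) and `d : Desc X p` (`exists_desc`).
* `sc`: `coboundary d Set.univ`; the product over `cyc [x₁, x₂, x₃, x₄]` is
  `F x₁ x₂ * (F x₂ x₃ * (F x₃ x₄ * (F x₄ x₁ * 1)))`.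
* `mt`: `M x y l := ∃ z, l = [z, d.a x] ∧ IsSq X x y z (d.a x) ∧ d.r x = d.r y + 1 ∧
  d.r x = d.r (d.a x) + 1`.
  `all`: a square has a vertex of maximal `r`; it is higher than its two neighbours (`d.adj_r`), so
  after a rotation it is `x₁`, and by `d.sq` `x₄ = a x₁` or `x₂ = a x₁`; in the second case reverse
  the list: `[x₁, x₄, x₃, x₂]` is a rotation of `[x₄, x₃, x₂, x₁]`.
  `inj`: `s(x, y) = s(x', y')` with `r x = r y + 1`, `r x' = r y' + 1` gives `x = x'`, `y = y'`;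
  `z = d.z x` by `d.sq`.
  `wf`: define `μ : Sym2 V → ℕ` (classically) by `μ e = 2 * r x + 1` if `e = s(x, y)` with
  `r x = r y + 1`, `y ≠ a x`, and `μ e = 2 * max (r x) (r y)` otherwise; for the related pairs
  `e' = s(x, y)`: `y ≠ a x` (`IsSq`), `μ e' = 2 * r x + 1`; the other edges of the cell are
  `s(y, z)`, `s(z, a x)`, `s(a x, x)`, with `r y, r z, r (a x) < r x` (`r z < r y`: `z = d.z x`,
  `y = d.b x`, `d.lower`), so `μ ≤ 2 * (r x - 1) + 1` for the first two and `μ = 2 * r x` for the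
  last one.  `Subrelation.wf` / `InvImage.wf μ`.
* `slender`: `K` fixes the four vertices.
-/

set_option autoImplicit false

namespace Pool.Agent.HC2

open Pool.Agent.HC

/-- The set of the boundary paths of squares. -/
def sqs {V : Type} (X : SimpleGraph V) : Set (List V) :=
  {c | ∃ x₁ x₂ x₃ x₄, IsSq X x₁ x₂ x₃ x₄ ∧ c = [x₁, x₂, x₃, x₄]}

theorem MedD_cyc {V : Type} (x₁ x₂ x₃ x₄ : V) :
    cyc [x₁, x₂, x₃, x₄] = [(x₁, x₂), (x₂, x₃), (x₃, x₄), (x₄, x₁)] := rfl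

theorem MedD_rot {V : Type} {X : SimpleGraph V} {x₁ x₂ x₃ x₄ : V} (h : IsSq X x₁ x₂ x₃ x₄) :
    IsSq X x₂ x₃ x₄ x₁ :=
  ⟨h.2.1, h.2.2.1, h.2.2.2.1, h.1, h.2.2.2.2.2, h.2.2.2.2.1.symm⟩

theorem MedD_rev {V : Type} {X : SimpleGraph V} {x₁ x₂ x₃ x₄ : V} (h : IsSq X x₁ x₂ x₃ x₄) :
    IsSq X x₁ x₄ x₃ x₂ :=
  ⟨h.2.2.2.1.symm, h.2.2.1.symm, h.2.1.symm, h.1.symm, h.2.2.2.2.1, h.2.2.2.2.2.symm⟩

/-- the matching -/
def MedD_M {V : Type} {X : SimpleGraph V} {p : V} (d : Desc X p) (x y : V) (l : List V) : Prop :=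
  ∃ z, l = [z, d.a x] ∧ IsSq X x y z (d.a x) ∧ d.r x = d.r y + 1 ∧ d.r x = d.r (d.a x) + 1

theorem MedD_top {V : Type} {X : SimpleGraph V} {p : V} (d : Desc X p) {x₁ x₂ x₃ x₄ : V}
    (h : IsSq X x₁ x₂ x₃ x₄) (h1 : d.r x₁ = d.r x₂ + 1) (h2 : d.r x₁ = d.r x₄ + 1) :
    ∃ x y l, MedD_M d x y l ∧
      ((x :: y :: l).IsRotated [x₁, x₂, x₃, x₄] ∨
        (x :: y :: l).IsRotated [x₁, x₂, x₃, x₄].reverse) := by
  obtain ⟨h3, h4 | h4⟩ := d.sq x₁ x₂ x₃ x₄ h h1 h2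
  · refine ⟨x₁, x₄, [x₃, x₂], ⟨x₃, by rw [← h4.1], ?_, h2, by rw [← h4.1]; exact h1⟩, Or.inr ?_⟩
    · rw [← h4.1]
      exact MedD_rev h
    · exact ⟨1, rfl⟩
  · refine ⟨x₁, x₂, [x₃, x₄], ⟨x₃, by rw [← h4.2], ?_, h1, by rw [← h4.2]; exact h2⟩, Or.inl ?_⟩
    · rw [← h4.2]
      exact h
    · exact ⟨0, rfl⟩

theorem MedD_all {V : Type} {X : SimpleGraph V} {p : V} (d : Desc X p) {x₁ x₂ x₃ x₄ : V}
    (h : IsSq X x₁ x₂ x₃ x₄) :
    ∃ x y l, MedD_M d x y l ∧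
      ((x :: y :: l).IsRotated [x₁, x₂, x₃, x₄] ∨
        (x :: y :: l).IsRotated [x₁, x₂, x₃, x₄].reverse) := by
  have a1 := d.adj_r _ _ h.1
  have a2 := d.adj_r _ _ h.2.1
  have a3 := d.adj_r _ _ h.2.2.1
  have a4 := d.adj_r _ _ h.2.2.2.1
  have hc : (d.r x₁ = d.r x₂ + 1 ∧ d.r x₁ = d.r x₄ + 1) ∨
      (d.r x₂ = d.r x₃ + 1 ∧ d.r x₂ = d.r x₁ + 1) ∨
      (d.r x₃ = d.r x₄ + 1 ∧ d.r x₃ = d.r x₂ + 1) ∨
      (d.r x₄ = d.r x₁ + 1 ∧ d.r x₄ = d.r x₃ + 1) := by omega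
  rcases hc with hc | hc | hc | hc
  · exact MedD_top d h hc.1 hc.2
  · obtain ⟨x, y, l, hM, hr⟩ := MedD_top d (MedD_rot h) hc.1 hc.2
    have hrot : [x₂, x₃, x₄, x₁].IsRotated [x₁, x₂, x₃, x₄] := ⟨3, rfl⟩
    exact ⟨x, y, l, hM, hr.imp (fun h => h.trans hrot) (fun h => h.trans hrot.reverse)⟩
  · obtain ⟨x, y, l, hM, hr⟩ := MedD_top d (MedD_rot (MedD_rot h)) hc.1 hc.2
    have hrot : [x₃, x₄, x₁, x₂].IsRotated [x₁, x₂, x₃, x₄] := ⟨2, rfl⟩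
    exact ⟨x, y, l, hM, hr.imp (fun h => h.trans hrot) (fun h => h.trans hrot.reverse)⟩
  · obtain ⟨x, y, l, hM, hr⟩ := MedD_top d (MedD_rot (MedD_rot (MedD_rot h))) hc.1 hc.2
    have hrot : [x₄, x₁, x₂, x₃].IsRotated [x₁, x₂, x₃, x₄] := ⟨1, rfl⟩
    exact ⟨x, y, l, hM, hr.imp (fun h => h.trans hrot) (fun h => h.trans hrot.reverse)⟩

/-- the larger distance of the two ends -/
def MedD_mx {V : Type} (r : V → ℕ) : Sym2 V → ℕ :=
  Sym2.lift ⟨fun x y => max (r x) (r y), fun _ _ => max_comm _ _⟩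

/-- the edges which do not go to the parent -/
def MedD_P {V : Type} (r : V → ℕ) (a : V → V) (e : Sym2 V) : Prop :=
  ∃ x y, e = s(x, y) ∧ r x = r y + 1 ∧ y ≠ a x

open Classical in
/-- the rank of an edge -/
noncomputable def MedD_mu {V : Type} (r : V → ℕ) (a : V → V) (e : Sym2 V) : ℕ :=
  2 * MedD_mx r e + if MedD_P r a e then 1 else 0

theorem MedD_mu_le {V : Type} (r : V → ℕ) (a : V → V) (x y : V) :
    MedD_mu r a s(x, y) ≤ 2 * max (r x) (r y) + 1 := by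
  unfold MedD_mu
  have h : MedD_mx r s(x, y) = max (r x) (r y) := rfl
  rw [h]
  split_ifs <;> omega

theorem MedD_mu_eq {V : Type} (r : V → ℕ) (a : V → V) {x y : V} (h1 : r x = r y + 1)
    (h2 : y ≠ a x) : MedD_mu r a s(x, y) = 2 * r x + 1 := by
  unfold MedD_mu
  have h : MedD_mx r s(x, y) = max (r x) (r y) := rfl
  rw [h, if_pos ⟨x, y, rfl, h1, h2⟩]
  omega

theorem MedD_mu_a {V : Type} (r : V → ℕ) (a : V → V) {x : V} (h1 : r x = r (a x) + 1) :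
    MedD_mu r a s(a x, x) = 2 * r x := by
  unfold MedD_mu
  have h : MedD_mx r s(a x, x) = max (r (a x)) (r x) := rfl
  rw [h, if_neg]
  · omega
  · rintro ⟨u, v, huv, h2, h3⟩
    rw [Sym2.eq_iff] at huv
    rcases huv with ⟨h4, h5⟩ | ⟨h4, h5⟩
    · subst h5
      rw [← h4] at h2
      omega
    · rw [← h5] at h3
      exact h3 h4.symm

theorem MedD_mt {V : Type} {X : SimpleGraph V} {p : V} (d : Desc X p) :
    IsMatching (sqs X) (MedD_M d) := by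
  refine ⟨?_, ?_, ?_, ?_⟩
  · rintro x y l ⟨z, rfl, h, -, -⟩
    exact ⟨x, y, z, d.a x, h, rfl⟩
  · rintro c ⟨x₁, x₂, x₃, x₄, h, rfl⟩
    exact MedD_all d h
  · rintro x y l x' y' l' ⟨z, rfl, h, h1, h2⟩ ⟨z', rfl, h', h1', h2'⟩ hs
    rw [Sym2.eq_iff] at hs
    rcases hs with ⟨e1, e2⟩ | ⟨e1, e2⟩
    · subst e1 e2
      have e3 := (d.sq _ _ _ _ h h1 h2).1
      have e4 := (d.sq _ _ _ _ h' h1' h2').1
      rw [e3, e4]
      exact ⟨rfl, rfl, rfl⟩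
    · rw [← e1, ← e2] at h1'
      omega
  · refine Subrelation.wf (r := InvImage (· < ·) (MedD_mu d.r d.a)) ?_ (InvImage.wf _ wellFounded_lt)
    rintro e e' ⟨x, y, l, ⟨z, rfl, h, h1, h2⟩, rfl, w, hw, rfl⟩
    show MedD_mu d.r d.a _ < MedD_mu d.r d.a _
    rw [MedD_mu_eq d.r d.a h1 h.2.2.2.2.2]
    rw [MedD_cyc] at hw
    obtain ⟨e3, e4⟩ := d.sq _ _ _ _ h h1 h2
    have hrz : d.r y = d.r z + 1 := by
      rcases d.lower x y h.1 h1 with e5 | ⟨e5, -, -, -, e6⟩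
      · exact absurd e5 h.2.2.2.2.2
      · rw [e3, e5]
        exact e6
    simp only [List.tail_cons, List.mem_cons, List.not_mem_nil, or_false] at hw
    rcases hw with rfl | rfl | rfl
    · have := MedD_mu_le d.r d.a y z
      show MedD_mu d.r d.a s(y, z) < _
      omega
    · have := MedD_mu_le d.r d.a z (d.a x)
      show MedD_mu d.r d.a s(z, d.a x) < _
      omega
    · show MedD_mu d.r d.a s(d.a x, x) < _
      rw [MedD_mu_a d.r d.a h2]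
      omega

theorem cxAct_of_median {G : Type} [Group G] {V : Type} [MulAction G V] (X : SimpleGraph V)
    (hmed : IsMedian X) (hdim : NoCube X)
    (hadj : ∀ (g : G) (x y : V), X.Adj x y → X.Adj (g • x) (g • y))
    (hsl : ∀ x₁ x₂ x₃ x₄ : V, IsSq X x₁ x₂ x₃ x₄ → ∀ K : Subgroup G,
      (∀ g ∈ K, g • x₁ = x₁ ∧ g • x₂ = x₂ ∧ g • x₃ = x₃ ∧ g • x₄ = x₄) → K.FG) :
    CxAct G V X (sqs X) := by
  obtain ⟨p⟩ := hmed.conn.nonempty
  obtain ⟨d⟩ := exists_desc hmed hdim p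
  refine ⟨hmed.conn, ?_, ?_, ⟨_, MedD_mt d⟩, hadj, ?_, ?_⟩
  · intro Q _ F hF hC
    obtain ⟨φ, hφ⟩ := coboundary d Set.univ (fun _ _ _ _ _ => Set.mem_univ _) F
      (fun x _ y _ h => hF x y h) (by
        intro x₁ _ x₂ _ x₃ _ x₄ _ h
        have h1 := hC [x₁, x₂, x₃, x₄] ⟨x₁, x₂, x₃, x₄, h, rfl⟩
        rw [MedD_cyc] at h1
        simpa [mul_assoc] using h1)
    exact ⟨φ, fun x y h => hφ x (Set.mem_univ _) y (Set.mem_univ _) h⟩
  · rintro c ⟨x₁, x₂, x₃, x₄, h, rfl⟩ e he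
    rw [MedD_cyc] at he
    simp only [List.mem_cons, List.not_mem_nil, or_false] at he
    rcases he with rfl | rfl | rfl | rfl
    · exact h.1
    · exact h.2.1
    · exact h.2.2.1
    · exact h.2.2.2.1
  · rintro g c ⟨x₁, x₂, x₃, x₄, h, rfl⟩
    refine ⟨g • x₁, g • x₂, g • x₃, g • x₄, ⟨hadj g _ _ h.1, hadj g _ _ h.2.1, hadj g _ _ h.2.2.1,
      hadj g _ _ h.2.2.2.1, ?_, ?_⟩, rfl⟩
    · intro e
      exact h.2.2.2.2.1 (MulAction.injective g e)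
    · intro e
      exact h.2.2.2.2.2 (MulAction.injective g e)
  · rintro c ⟨x₁, x₂, x₃, x₄, h, rfl⟩ K hK
    exact hsl x₁ x₂ x₃ x₄ h K (fun g hg => ⟨hK g hg _ (by simp), hK g hg _ (by simp),
      hK g hg _ (by simp), hK g hg _ (by simp)⟩)

end Pool.Agent.HC2
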