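import Pool.Agent.HC2.Lst

/-!
# HC2 module SubA: subdivision of a 2-complex (diff 3)

The subdivision of the graph `X` has the vertices `inl v` (old) and `inr e` (midpoints of edges),
`inl v` and `inr e` are adjacent iff `v ∈ e`.  `mid X a b` is the midpoint of the edge `{a, b}`
(junk if `a, b` are not adjacent), `sbd X c = [x₁, m₁₂, x₂, m₂₃, …, x_m, m_{m1}]` for
`c = [x₁, …, x_m]`.

PROOFS.
* `cyc_sbd`: first for paths: with `f e = [inl e.1, mid e.1 e.2]`,
  `g e = [(inl e.1, mid e.1 e.2), (mid e.1 e.2, inl e.2)]` and `A = ((x :: l).zip (l ++ [z])).flatMap f`: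
  `A.zip (A.tail ++ [inl z]) = ((x :: l).zip (l ++ [z])).flatMap g`, by induction on `l` (for all
  `x`); then `z = x`.
* `sub_conn`: a walk of `X` gives a walk of the subdivision between the same vertices
  (`x, mid x y, y`), and every midpoint is adjacent to an old vertex.
* `sub_path`: `cyc_sbd` and the adjacency of `inl a`, `mid a b`, `inl b` for adjacent `a, b`.
* `sub_sc`: let `F` be a cocycle of the subdivision.  Put
  `F₀ x y = F (inl x) (mid x y) * F (mid x y) (inl y)`; since `mid x y = mid y x` it satisfies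
  `F₀ y x = (F₀ x y)⁻¹`, and its product over `cyc c` is the product of `F` over `cyc (sbd c)`
  (`cyc_sbd`, `List.prod` of a `flatMap`), which is `1`.  So `F₀ x y = (φ₀ x)⁻¹ * φ₀ y`.  Put
  `φ (inl v) = φ₀ v`, and for a midpoint `e` choose an end `x ∈ e` (`e.1.out.1` or
  `Quot.exists_rep`/`Sym2.ind`) and put `φ (inr e) = φ₀ x * F (inl x) (inr e)`.  If `y` is the other
  end, `F₀ x y = (φ₀ x)⁻¹ * φ₀ y` gives `φ₀ y = φ₀ x * F (inl x) (inr e) * F (inr e) (inl y)`, so
  `φ (inr e) = φ₀ y * F (inl y) (inr e)` as well.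
* `sbd_map`: for the action `sact` of `G`: `g • mid a b = mid (g • a) (g • b)` for adjacent `a, b`.
-/

set_option autoImplicit false

namespace Pool.Agent.HC2

open Pool.Agent.HC

variable {V : Type}

/-- The vertices of the subdivision. -/
abbrev SV (X : SimpleGraph V) : Type := V ⊕ X.edgeSet

/-- The subdivision. -/
def SX (X : SimpleGraph V) : SimpleGraph (SV X) where
  Adj a b := (∃ (v : V) (e : X.edgeSet), a = Sum.inl v ∧ b = Sum.inr e ∧ v ∈ (e : Sym2 V)) ∨
    ∃ (v : V) (e : X.edgeSet), b = Sum.inl v ∧ a = Sum.inr e ∧ v ∈ (e : Sym2 V)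
  symm := ⟨fun _ _ h => Or.symm h⟩
  loopless := ⟨fun a h => by
    rcases h with ⟨v, e, h1, h2, -⟩ | ⟨v, e, h1, h2, -⟩ <;> rw [h1] at h2 <;> cases h2⟩

open Classical in
/-- The midpoint of an edge. -/
noncomputable def mid (X : SimpleGraph V) (a b : V) : SV X :=
  if h : X.Adj a b then Sum.inr ⟨s(a, b), h⟩ else Sum.inl a

/-- The subdivision of a closed path. -/
noncomputable def sbd (X : SimpleGraph V) (c : List V) : List (SV X) :=
  (cyc c).flatMap fun e => [Sum.inl e.1, mid X e.1 e.2]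

/-- The action on the subdivision. -/
@[reducible]
def sact {G : Type} [Group G] [MulAction G V] (X : SimpleGraph V)
    (hadj : ∀ (g : G) (x y : V), X.Adj x y → X.Adj (g • x) (g • y)) : MulAction G (SV X) where
  smul g a := match a with
    | Sum.inl v => Sum.inl (g • v)
    | Sum.inr e => Sum.inr ⟨Sym2.map (fun x => g • x) e.1, by
        obtain ⟨e, he⟩ := e
        induction e using Sym2.ind with
        | _ x y => exact hadj g x y he⟩
  one_smul a := by
    rcases a with v | ⟨e, he⟩
    · show Sum.inl ((1 : G) • v) = _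
      rw [one_smul]
    · show Sum.inr _ = _
      congr 2
      simp
  mul_smul g h a := by
    rcases a with v | ⟨e, he⟩
    · show Sum.inl ((g * h) • v) = Sum.inl (g • h • v)
      rw [mul_smul]
    · show Sum.inr _ = Sum.inr _
      congr 2
      rw [Sym2.map_map]
      congr 1
      funext x
      simp [mul_smul]

theorem SubA_zipA (X : SimpleGraph V) (z : V) : ∀ (l : List V) (x : V),
    ((((x :: l).zip (l ++ [z])).flatMap fun e => [Sum.inl e.1, mid X e.1 e.2]) : List (SV X)) =
      Sum.inl x :: (((x :: l).zip (l ++ [z])).flatMap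
        fun e => [(Sum.inl e.1 : SV X), mid X e.1 e.2]).tail
  | [], x => by simp
  | y :: l, x => by simp

theorem SubA_zip (X : SimpleGraph V) (z : V) : ∀ (l : List V) (x : V),
    ((((x :: l).zip (l ++ [z])).flatMap fun e => [(Sum.inl e.1 : SV X), mid X e.1 e.2])).zip
      ((((x :: l).zip (l ++ [z])).flatMap fun e => [(Sum.inl e.1 : SV X), mid X e.1 e.2]).tail
        ++ [Sum.inl z]) =
      ((x :: l).zip (l ++ [z])).flatMap fun e =>
        [(Sum.inl e.1, mid X e.1 e.2), (mid X e.1 e.2, Sum.inl e.2)]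
  | [], x => by simp
  | y :: l, x => by
    have ih := SubA_zip X z l y
    have hA := SubA_zipA X z l y
    have e0 : (x :: y :: l).zip (y :: l ++ [z]) = (x, y) :: (y :: l).zip (l ++ [z]) := by simp
    rw [e0]
    simp only [List.flatMap_cons, List.cons_append, List.nil_append, List.tail_cons,
      List.zip_cons_cons]
    congr 1
    conv_lhs => rw [hA]
    rw [List.cons_append, List.zip_cons_cons]
    congr 1
    rw [← ih]
    conv_rhs => rw [hA]
    simp

theorem cyc_sbd (X : SimpleGraph V) (c : List V) :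
    cyc (sbd X c) = (cyc c).flatMap fun e =>
      [(Sum.inl e.1, mid X e.1 e.2), (mid X e.1 e.2, Sum.inl e.2)] := by
  rcases c with _ | ⟨x, l⟩
  · simp [cyc, sbd]
  · have hc : cyc (x :: l) = (x :: l).zip (l ++ [x]) := by
      unfold cyc
      rw [List.rotate_cons_succ, List.rotate_zero]
    have hs : sbd X (x :: l) = (((x :: l).zip (l ++ [x])).flatMap
        fun e => [(Sum.inl e.1 : SV X), mid X e.1 e.2]) := by
      unfold sbd
      rw [hc]
    have hA := SubA_zipA X x l x
    have key : (sbd X (x :: l)).rotate 1 = (sbd X (x :: l)).tail ++ [Sum.inl x] := by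
      rw [hs]
      conv_lhs => rw [hA]
      rw [List.rotate_cons_succ, List.rotate_zero]
    have h2 : cyc (sbd X (x :: l)) = (sbd X (x :: l)).zip ((sbd X (x :: l)).tail ++ [Sum.inl x]) := by
      conv_lhs => unfold cyc
      rw [key]
    rw [h2, hc, hs]
    exact SubA_zip X x l x

theorem mid_comm (X : SimpleGraph V) {a b : V} (h : X.Adj a b) : mid X a b = mid X b a := by
  unfold mid
  rw [dif_pos h, dif_pos h.symm]
  congr 1
  apply Subtype.ext
  exact Sym2.eq_swap

theorem mid_adj (X : SimpleGraph V) {a b : V} (h : X.Adj a b) :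
    (SX X).Adj (Sum.inl a) (mid X a b) ∧ (SX X).Adj (mid X a b) (Sum.inl b) := by
  unfold mid
  rw [dif_pos h]
  exact ⟨Or.inl ⟨a, _, rfl, rfl, Sym2.mem_mk_left a b⟩,
    Or.inr ⟨b, _, rfl, rfl, Sym2.mem_mk_right a b⟩⟩

theorem SubA_reach (X : SimpleGraph V) {x y : V} (p : X.Walk x y) :
    (SX X).Reachable (Sum.inl x) (Sum.inl y) := by
  induction p with
  | nil => exact SimpleGraph.Reachable.refl _
  | cons h p ih =>
    have := mid_adj X h
    exact (this.1.reachable.trans this.2.reachable).trans ih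

theorem SubA_reach_mid (X : SimpleGraph V) (e : X.edgeSet) :
    ∃ x : V, (SX X).Reachable (Sum.inr e) (Sum.inl x) := by
  obtain ⟨e, he⟩ := e
  induction e using Sym2.ind with
  | _ x y =>
    refine ⟨x, SimpleGraph.Adj.reachable (Or.inr ⟨x, _, rfl, rfl, Sym2.mem_mk_left x y⟩)⟩

theorem sub_conn (X : SimpleGraph V) (conn : X.Connected) : (SX X).Connected := by
  have h1 : ∀ a : SV X, ∃ x : V, (SX X).Reachable a (Sum.inl x) := by
    rintro (x | e)
    · exact ⟨x, SimpleGraph.Reachable.refl _⟩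
    · exact SubA_reach_mid X e
  obtain ⟨v0⟩ := conn.nonempty
  have : Nonempty (SV X) := ⟨Sum.inl v0⟩
  refine SimpleGraph.Connected.mk ?_
  intro a b
  obtain ⟨x, hx⟩ := h1 a
  obtain ⟨y, hy⟩ := h1 b
  obtain ⟨p⟩ := conn.preconnected x y
  exact (hx.trans (SubA_reach X p)).trans hy.symm

theorem sub_path (X : SimpleGraph V) (C : Set (List V))
    (path : ∀ c ∈ C, ∀ e ∈ cyc c, X.Adj e.1 e.2) :
    ∀ c ∈ sbd X '' C, ∀ e ∈ cyc c, (SX X).Adj e.1 e.2 := by
  rintro _ ⟨c, hc, rfl⟩ e he
  rw [cyc_sbd, List.mem_flatMap] at he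
  obtain ⟨d, hd, he⟩ := he
  have h := mid_adj X (path c hc d hd)
  simp only [List.mem_cons, List.not_mem_nil, or_false] at he
  rcases he with rfl | rfl
  · exact h.1
  · exact h.2

theorem sub_sc (X : SimpleGraph V) (C : Set (List V))
    (sc : ∀ (Q : Type) [Group Q] (F : V → V → Q), (∀ x y, X.Adj x y → F y x = (F x y)⁻¹) →
      (∀ c ∈ C, ((cyc c).map fun e => F e.1 e.2).prod = 1) →
        ∃ φ : V → Q, ∀ x y, X.Adj x y → F x y = (φ x)⁻¹ * φ y)
    (path : ∀ c ∈ C, ∀ e ∈ cyc c, X.Adj e.1 e.2)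
    (Q : Type) [Group Q] (F : SV X → SV X → Q)
    (h1 : ∀ x y, (SX X).Adj x y → F y x = (F x y)⁻¹)
    (h2 : ∀ c ∈ sbd X '' C, ((cyc c).map fun e => F e.1 e.2).prod = 1) :
    ∃ φ : SV X → Q, ∀ x y, (SX X).Adj x y → F x y = (φ x)⁻¹ * φ y := by
  obtain ⟨φ₀, hφ⟩ := sc Q
    (fun x y => F (Sum.inl x) (mid X x y) * F (mid X x y) (Sum.inl y))
    (by
      intro x y hxy
      have m1 := mid_adj X hxy
      have e1 := h1 _ _ m1.1
      have e2 := h1 _ _ m1.2
      show F (Sum.inl y) (mid X y x) * F (mid X y x) (Sum.inl x) = _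
      rw [← mid_comm X hxy, e1, e2]
      group)
    (by
      intro c hc
      have := h2 _ ⟨c, hc, rfl⟩
      rw [cyc_sbd] at this
      rw [← this]
      generalize cyc c = L
      induction L with
      | nil => simp
      | cons e L ih =>
        simp only [List.map_cons, List.prod_cons, List.flatMap_cons, List.map_append,
          List.map_nil, List.prod_append, List.prod_nil, mul_one, ih])
  have hm : ∀ e : X.edgeSet, ∃ q : Q, ∀ x : V, x ∈ (e : Sym2 V) →
      q = φ₀ x * F (Sum.inl x) (Sum.inr e) := by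
    rintro ⟨e, he⟩
    induction e using Sym2.ind with
    | _ x y =>
      have hxy : X.Adj x y := he
      refine ⟨φ₀ x * F (Sum.inl x) (Sum.inr ⟨s(x, y), he⟩), ?_⟩
      intro z hz
      have hz' : z = x ∨ z = y := by simpa using hz
      rcases hz' with rfl | rfl
      · rfl
      · have hh := hφ x z hxy
        have hmid : mid X x z = Sum.inr ⟨s(x, z), he⟩ := by
          unfold mid
          rw [dif_pos hxy]
        simp only [hmid] at hh
        have e3 : F (Sum.inr ⟨s(x, z), he⟩) (Sum.inl z) =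
            (F (Sum.inl z) (Sum.inr ⟨s(x, z), he⟩))⁻¹ := by
          apply h1
          exact Or.inl ⟨z, _, rfl, rfl, Sym2.mem_mk_right x z⟩
        rw [e3] at hh
        have h4 : φ₀ z = φ₀ x * (F (Sum.inl x) (Sum.inr ⟨s(x, z), he⟩) *
            (F (Sum.inl z) (Sum.inr ⟨s(x, z), he⟩))⁻¹) := by
          rw [hh]; group
        rw [h4]; group
  choose ψ hψ using hm
  refine ⟨fun a => match a with
    | Sum.inl v => φ₀ v
    | Sum.inr e => ψ e, ?_⟩
  rintro a b (⟨v, e, rfl, rfl, hv⟩ | ⟨v, e, rfl, rfl, hv⟩)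
  · show F (Sum.inl v) (Sum.inr e) = (φ₀ v)⁻¹ * ψ e
    rw [hψ e v hv]; group
  · show F (Sum.inr e) (Sum.inl v) = (ψ e)⁻¹ * φ₀ v
    rw [hψ e v hv, h1 (Sum.inl v) (Sum.inr e) (Or.inl ⟨v, e, rfl, rfl, hv⟩)]
    group

theorem SubA_smul_mid {G : Type} [Group G] [MulAction G V] (X : SimpleGraph V)
    (hadj : ∀ (g : G) (x y : V), X.Adj x y → X.Adj (g • x) (g • y)) {a b : V}
    (h : X.Adj a b) (g : G) :
    (sact X hadj).smul g (mid X a b) = mid X (g • a) (g • b) := by
  unfold mid
  rw [dif_pos h, dif_pos (hadj g a b h)]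
  rfl

theorem sbd_map {G : Type} [Group G] [MulAction G V] (X : SimpleGraph V)
    (hadj : ∀ (g : G) (x y : V), X.Adj x y → X.Adj (g • x) (g • y)) (c : List V)
    (hc : ∀ e ∈ cyc c, X.Adj e.1 e.2) (g : G) :
    (sbd X c).map (fun a => (sact X hadj).smul g a) = sbd X (c.map fun x => g • x) := by
  unfold sbd
  rw [cyc_map, List.flatMap_map, List.map_flatMap]
  apply List.flatMap_congr
  intro e he
  simp only [List.map_cons, List.map_nil]
  rw [SubA_smul_mid X hadj (hc e he) g]
  rfl

end Pool.Agent.HC2
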