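import Pool.Agent.HC2.Lst

/-!
# HC2 module UniA: the recursion for the universal cocycle (diff 3)

(Generalizes `Pool.Agent.HC.UniA`, the case of squares; copy and adapt its proofs.)
`gn j h` is the generator attached to the edge `h B_j`.  `Mt C M T j h g x y l σ` says that the edge
`(j, h)` is matched in the lift of the 2-cell `g • (x :: y :: l)`: `x :: y :: l ∈ C` is in `W`,
`M (g • x) (g • y) (g • l)`, and the step `g • st x y` is the edge `(j, h)` traversed in the
direction `σ`.
`UU n` is defined by recursion: `UU 0 = gn`; `UU (n+1) j h = gn j h` if there is no match, and for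
a (chosen) match the value such that the label of the 2-cell is `1`:
`UU (n+1) (step x y) * (product of UU n over the other steps) = 1`.

PROOFS.
* `gn_inv`: `(h * b : H ⧸ B) = h` for `b ∈ B` (`QuotientGroup.eq`).
* `mt_uniq`: two matches `(g, x, y, l, σ)`, `(g', x', y', l', σ')` of `(j, h)`.  By `T.stp` the steps
  `g • st x y` and `g' • st x' y'` lie above the pair `h • pe j` or its reverse (`b ∈ B j` fixes
  `pe j`; see `UniA_pair` in `HC.UniA`), so `s(g • x, g • y) = s(g' • x', g' • y')`, and by `inj`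
  `g • x = g' • x'`, `g • y = g' • y'`, `g • l = g' • l'`; `σ = σ'` since `h • pe j` has different
  components.  So `γ = g'⁻¹ * g` maps the list `x :: y :: l` to `x' :: y' :: l'`, and `CReq` gives
  `T.Req γ e.1 e.2` for all `e ∈ cyc (x :: y :: l)`.
* `req_lab`: if `f` is invariant and `T.Req γ x y` then
  `lab1 f (g * γ) (st x y) = lab1 f g (st (γ • x) (γ • y))`.
* `UU_inv`: the predicates `Mt .. j (h * b)` and `Mt .. j h` are equal for `b ∈ B j`, so the chosen
  witnesses are equal (`UniA_dite` in `HC.UniA`).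
* `UU_match`: for the chosen match by definition, for another one by `mt_uniq`, `req_lab` for all the
  edges, `cyc_map` and the invariance.
* `UU_univ`: let `f` be a cocycle.  Define `Λ` on the generator `⟨j, q⟩` as `f j q.out`; then
  `Λ (gn j h) = f j h` by invariance, and by induction `Λ (UU n j h) = f j h`: in the matched case
  `Λ` of the defining relation, and the relation `lab f g ((cyc (x :: y :: l)).map st) = 1` of `f`
  (`ccells`); `lab f g (L.map ..)` is the product of the `lab1 f g ..` (`lab_map`, prove it first).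
-/

set_option autoImplicit false

namespace Pool.Agent.HC2

open Pool.Agent.HC

/-- The label of a list of steps is the product of the labels of the steps. -/
theorem lab_prod {H : Type} [Group H] {D : GG H} {Q : Type} [Group Q] (f : D.J → H → Q) (g : H)
    (L : List (Stp D)) : lab f g L = (L.map (lab1 f g)).prod := by
  induction L with
  | nil => rfl
  | cons s L ih =>
    rw [List.map_cons, List.prod_cons, ← ih]
    rfl

variable {H : Type} [Group H] {V : Type} [MulAction H V] {X : SimpleGraph V} {W : Set V}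

/-- Generators: the edges of `D`. -/
abbrev EE (T : Lft H V X W) : Type := Σ j : T.D.J, H ⧸ T.D.B j

/-- The generator attached to the edge `h B_j`. -/
def gn (T : Lft H V X W) (j : T.D.J) (h : H) : FreeGroup (EE T) :=
  FreeGroup.of ⟨j, (h : H ⧸ T.D.B j)⟩

/-- The edge `(j, h)` is matched in the 2-cell `g • (x :: y :: l)`; `m = (g, x, y, l, σ)`. -/
def Mt (C : Set (List V)) (M : V → V → List V → Prop) (T : Lft H V X W) (j : T.D.J) (h : H)
    (m : H × V × V × List V × Bool) : Prop :=
  m.2.1 :: m.2.2.1 :: m.2.2.2.1 ∈ C ∧ (∀ v ∈ m.2.1 :: m.2.2.1 :: m.2.2.2.1, v ∈ W) ∧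
    M (m.1 • m.2.1) (m.1 • m.2.2.1) (m.2.2.2.1.map fun v => m.1 • v) ∧
    (T.st m.2.1 m.2.2.1).1 = j ∧ (T.st m.2.1 m.2.2.1).2.2 = m.2.2.2.2 ∧
    h⁻¹ * (m.1 * (T.st m.2.1 m.2.2.1).2.1) ∈ T.D.B j

/-- The product of the labels of the other steps of the cell. -/
def rst (T : Lft H V X W) {Q : Type} [Group Q] (f : T.D.J → H → Q) (g : H) (x y : V)
    (l : List V) : Q :=
  ((cyc (x :: y :: l)).tail.map fun e => lab1 f g (T.st e.1 e.2)).prod

open Classical in
/-- The recursion. -/
noncomputable def UU (C : Set (List V)) (M : V → V → List V → Prop) (T : Lft H V X W) :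
    ℕ → T.D.J → H → FreeGroup (EE T)
  | 0, j, h => gn T j h
  | n + 1, j, h =>
    if hm : ∃ m, Mt C M T j h m then
      if hm.choose.2.2.2.2 then
        (rst T (UU C M T n) hm.choose.1 hm.choose.2.1 hm.choose.2.2.1 hm.choose.2.2.2.1)⁻¹
      else rst T (UU C M T n) hm.choose.1 hm.choose.2.1 hm.choose.2.2.1 hm.choose.2.2.2.1
    else gn T j h

theorem gn_inv (T : Lft H V X W) : InvF T.D (gn T) := by
  intro j h b hb
  unfold gn
  rw [QuotientGroup.mk_mul_of_mem h hb]

theorem req_lab (T : Lft H V X W) {Q : Type} [Group Q] (f : T.D.J → H → Q) (hf : InvF T.D f)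
    (γ : H) (x y : V) (h : T.Req γ x y) (g : H) :
    lab1 f (g * γ) (T.st x y) = lab1 f g (T.st (γ • x) (γ • y)) := by
  obtain ⟨h1, h2, h3⟩ := h
  unfold lab1
  rw [h1, h2]
  have h4 : g * γ * (T.st x y).2.1 = g * (T.st (γ • x) (γ • y)).2.1 *
      ((T.st (γ • x) (γ • y)).2.1⁻¹ * (γ * (T.st x y).2.1)) := by group
  rw [h4, hf _ _ _ h3]

theorem UniA_pair (T : Lft H V X W) {j : T.D.J} {h g : H} {x₁ x₂ : V} {σ : Bool} (h1 : x₁ ∈ W)
    (h2 : x₂ ∈ W) (hadj : X.Adj x₁ x₂) (hj : (T.st x₁ x₂).1 = j) (hs : (T.st x₁ x₂).2.2 = σ)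
    (hB : h⁻¹ * (g * (T.st x₁ x₂).2.1) ∈ T.D.B j) :
    h • T.pe j = if σ then (g • x₁, g • x₂) else (g • x₂, g • x₁) := by
  have h3 := T.stp x₁ h1 x₂ h2 hadj
  rw [hj, hs] at h3
  have h4 := T.Bfix j _ hB
  have h5 : h • T.pe j = g • ((T.st x₁ x₂).2.1 • T.pe j) := by
    have h6 : h • ((h⁻¹ * (g * (T.st x₁ x₂).2.1)) • T.pe j) = h • T.pe j := by rw [h4]
    rw [← h6, smul_smul, smul_smul]
    congr 1
    group
  rw [h5, h3]
  cases σ
  · simp
  · simp

theorem UniA_fst {x y : V} {l : List V} : (x, y) ∈ cyc (x :: y :: l) := by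
  rw [cyc_cons]
  exact List.mem_cons_self

theorem mt_uniq {C : Set (List V)} {M : V → V → List V → Prop} (hM : IsMatching C M)
    (path : ∀ c ∈ C, ∀ e ∈ cyc c, X.Adj e.1 e.2) (T : Lft H V X W) (hT : CReq C T)
    (j : T.D.J) (h : H) (g g' : H) (x y : V) (l : List V) (x' y' : V) (l' : List V) (σ σ' : Bool)
    (h₁ : Mt C M T j h (g, x, y, l, σ)) (h₂ : Mt C M T j h (g', x', y', l', σ')) :
    σ = σ' ∧ (x :: y :: l).map (fun v => (g'⁻¹ * g) • v) = x' :: y' :: l' ∧
      ∀ e ∈ cyc (x :: y :: l), T.Req (g'⁻¹ * g) e.1 e.2 := by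
  obtain ⟨hC, hW, hm, hj, hs, hB⟩ := h₁
  obtain ⟨hC', hW', hm', hj', hs', hB'⟩ := h₂
  simp only at hC hW hm hj hs hB hC' hW' hm' hj' hs' hB'
  have a1 : X.Adj x y := path _ hC _ UniA_fst
  have a2 : X.Adj x' y' := path _ hC' _ UniA_fst
  have wx : x ∈ W := hW x (by simp)
  have wy : y ∈ W := hW y (by simp)
  have wx' : x' ∈ W := hW' x' (by simp)
  have wy' : y' ∈ W := hW' y' (by simp)
  have p1 := UniA_pair T wx wy a1 hj hs hB
  have p2 := UniA_pair T wx' wy' a2 hj' hs' hB'
  rw [p1] at p2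
  have hsym : s(g • x, g • y) = s(g' • x', g' • y') := by
    cases σ <;> cases σ' <;> simp only [if_true, if_false, Bool.false_eq_true, Prod.mk.injEq] at p2
    · rw [p2.1, p2.2]
    · rw [p2.1, p2.2]
      exact Sym2.eq_swap
    · rw [p2.1, p2.2]
      exact Sym2.eq_swap
    · rw [p2.1, p2.2]
  obtain ⟨i1, i2, i3⟩ := hM.inj _ _ _ _ _ _ hm hm' hsym
  have hσ : σ = σ' := by
    cases σ <;> cases σ' <;> simp only [if_true, if_false, Bool.false_eq_true, Prod.mk.injEq] at p2
    · rfl
    · exfalso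
      rw [i2] at p2
      exact a2.ne (MulAction.injective g' p2.1.symm)
    · exfalso
      rw [i1] at p2
      exact a2.ne (MulAction.injective g' p2.1)
    · rfl
  have hγ : ∀ v v' : V, g • v = g' • v' → (g'⁻¹ * g) • v = v' := by
    intro v v' hv
    rw [mul_smul, hv, inv_smul_smul]
  have hl : l.map (fun v => (g'⁻¹ * g) • v) = l' := by
    have h3 : l.map (fun v => (g'⁻¹ * g) • v) = (l.map (fun v => g • v)).map (fun v => g'⁻¹ • v) := by
      rw [List.map_map]
      refine List.map_congr_left ?_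
      intro v _
      simp only [Function.comp]
      rw [mul_smul]
    rw [h3, i3, List.map_map]
    have h4 : ((fun v : V => g'⁻¹ • v) ∘ fun v => g' • v) = id := by
      funext v
      simp only [Function.comp, id]
      rw [inv_smul_smul]
    rw [h4, List.map_id]
  have hmap : (x :: y :: l).map (fun v => (g'⁻¹ * g) • v) = x' :: y' :: l' := by
    rw [List.map_cons, List.map_cons, hl, hγ _ _ i1, hγ _ _ i2]
  refine ⟨hσ, hmap, ?_⟩
  refine hT _ hC (g'⁻¹ * g) ?_
  intro v hv
  refine ⟨hW v hv, ?_⟩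
  apply hW'
  rw [← hmap]
  exact List.mem_map_of_mem hv

theorem UniA_mt_inv (C : Set (List V)) (M : V → V → List V → Prop) (T : Lft H V X W) (j : T.D.J)
    (h b : H) (hb : b ∈ T.D.B j) : Mt C M T j (h * b) = Mt C M T j h := by
  funext m
  have h1 : (h * b)⁻¹ * (m.1 * (T.st m.2.1 m.2.2.1).2.1) =
      b⁻¹ * (h⁻¹ * (m.1 * (T.st m.2.1 m.2.2.1).2.1)) := by group
  unfold Mt
  rw [h1, Subgroup.mul_mem_cancel_left _ (inv_mem hb)]

open Classical in
theorem UniA_dite {M Q : Type} (P P' : M → Prop) (hP : P = P') (F : M → Q) (G : Q) :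
    (if hm : ∃ m, P m then F hm.choose else G) = (if hm : ∃ m, P' m then F hm.choose else G) := by
  subst hP
  rfl

/-- the value for a match -/
noncomputable def UniA_val (C : Set (List V)) (M : V → V → List V → Prop) (T : Lft H V X W) (n : ℕ)
    (m : H × V × V × List V × Bool) : FreeGroup (EE T) :=
  if m.2.2.2.2 then (rst T (UU C M T n) m.1 m.2.1 m.2.2.1 m.2.2.2.1)⁻¹
  else rst T (UU C M T n) m.1 m.2.1 m.2.2.1 m.2.2.2.1

open Classical in
theorem UniA_succ (C : Set (List V)) (M : V → V → List V → Prop) (T : Lft H V X W) (n : ℕ)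
    (j : T.D.J) (h : H) : UU C M T (n + 1) j h =
      if hm : ∃ m, Mt C M T j h m then UniA_val C M T n hm.choose else gn T j h :=
  rfl

theorem UU_inv (C : Set (List V)) (M : V → V → List V → Prop) (T : Lft H V X W) (n : ℕ) :
    InvF T.D (UU C M T n) := by
  intro j h b hb
  cases n with
  | zero => exact gn_inv T j h b hb
  | succ n =>
    rw [UniA_succ, UniA_succ, gn_inv T j h b hb]
    exact UniA_dite _ _ (UniA_mt_inv C M T j h b hb) _ _

theorem UU_zero (C : Set (List V)) (M : V → V → List V → Prop) (T : Lft H V X W) (n : ℕ)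
    (j : T.D.J) (h : H) (hm : ¬ ∃ m, Mt C M T j h m) : UU C M T n j h = gn T j h := by
  cases n with
  | zero => rfl
  | succ n => rw [UniA_succ, dif_neg hm]

theorem UniA_rst (T : Lft H V X W) {Q : Type} [Group Q] (f : T.D.J → H → Q) (hf : InvF T.D f)
    (g g' : H) (x y : V) (l : List V) (x' y' : V) (l' : List V)
    (hmap : (x :: y :: l).map (fun v => (g'⁻¹ * g) • v) = x' :: y' :: l')
    (hreq : ∀ e ∈ cyc (x :: y :: l), T.Req (g'⁻¹ * g) e.1 e.2) :
    rst T f g x y l = rst T f g' x' y' l' := by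
  unfold rst
  rw [← hmap, cyc_map, ← List.map_tail, List.map_map]
  congr 1
  refine List.map_congr_left ?_
  intro e he
  have h1 := req_lab T f hf (g'⁻¹ * g) e.1 e.2 (hreq e (List.mem_of_mem_tail he)) g'
  have hg : g' * (g'⁻¹ * g) = g := by group
  rw [hg] at h1
  simp only [Function.comp]
  rw [h1]

theorem UniA_lab1 (T : Lft H V X W) {Q : Type} [Group Q] (f : T.D.J → H → Q) (hf : InvF T.D f)
    {j : T.D.J} {h g : H} {x y : V} {σ : Bool} (hj : (T.st x y).1 = j) (hs : (T.st x y).2.2 = σ)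
    (hB : h⁻¹ * (g * (T.st x y).2.1) ∈ T.D.B j) :
    lab1 f g (T.st x y) = if σ then f j h else (f j h)⁻¹ := by
  have h5 : f j (g * (T.st x y).2.1) = f j h := by
    have h6 : g * (T.st x y).2.1 = h * (h⁻¹ * (g * (T.st x y).2.1)) := by group
    rw [h6, hf j h _ hB]
  unfold lab1
  rw [hj, hs, h5]

theorem UU_match {C : Set (List V)} {M : V → V → List V → Prop} (hM : IsMatching C M)
    (path : ∀ c ∈ C, ∀ e ∈ cyc c, X.Adj e.1 e.2) (T : Lft H V X W) (hT : CReq C T)
    (n : ℕ) (j : T.D.J) (h : H) (g : H) (x y : V) (l : List V) (σ : Bool)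
    (hm : Mt C M T j h (g, x, y, l, σ)) :
    lab1 (UU C M T (n + 1)) g (T.st x y) * rst T (UU C M T n) g x y l = 1 := by
  have hex : ∃ m, Mt C M T j h m := ⟨_, hm⟩
  have h1 := UniA_succ C M T n j h
  rw [dif_pos hex] at h1
  have h2 := hex.choose_spec
  generalize hex.choose = m at h1 h2
  obtain ⟨g', x', y', l', σ'⟩ := m
  obtain ⟨e0, hmap, hreq⟩ := mt_uniq hM path T hT j h g g' x y l x' y' l' σ σ' hm h2
  have h3 := UniA_rst T (UU C M T n) (UU_inv C M T n) g g' x y l x' y' l' hmap hreq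
  obtain ⟨-, -, -, hj, hs, hB⟩ := hm
  simp only at hj hs hB
  rw [UniA_lab1 T (UU C M T (n + 1)) (UU_inv C M T (n + 1)) hj hs hB, h1, h3]
  unfold UniA_val
  simp only
  rw [e0]
  cases σ'
  · simp
  · simp

theorem UniA_map (T : Lft H V X W) {Q Q' : Type} [Group Q] [Group Q'] (Λ : Q' →* Q)
    (F : T.D.J → H → Q') (f : T.D.J → H → Q) (hF : ∀ j h, Λ (F j h) = f j h) (g : H)
    (s : Stp T.D) : Λ (lab1 F g s) = lab1 f g s := by
  unfold lab1
  split_ifs
  · rw [hF]
  · rw [map_inv, hF]

theorem UniA_map_rst (T : Lft H V X W) {Q Q' : Type} [Group Q] [Group Q'] (Λ : Q' →* Q)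
    (F : T.D.J → H → Q') (f : T.D.J → H → Q) (hF : ∀ j h, Λ (F j h) = f j h) (g : H)
    (x y : V) (l : List V) : Λ (rst T F g x y l) = rst T f g x y l := by
  unfold rst
  rw [map_list_prod, List.map_map]
  congr 1
  refine List.map_congr_left ?_
  intro e _
  exact UniA_map T Λ F f hF g _

theorem UU_univ {C : Set (List V)} {M : V → V → List V → Prop} (T : Lft H V X W)
    {Q : Type} [Group Q] (f : T.D.J → H → Q) (hf : Coc T.D (ccells C T) f) :
    ∃ Λ : FreeGroup (EE T) →* Q, ∀ n j h, Λ (UU C M T n j h) = f j h := by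
  refine ⟨FreeGroup.lift (fun e : EE T => f e.1 e.2.out), ?_⟩
  have h0 : ∀ j h, FreeGroup.lift (fun e : EE T => f e.1 e.2.out) (gn T j h) = f j h := by
    intro j h
    unfold gn
    rw [FreeGroup.lift_apply_of]
    simp only
    obtain ⟨b, hb⟩ := QuotientGroup.mk_out_eq_mul (T.D.B j) h
    rw [hb, hf.1 _ _ _ b.2]
  intro n
  induction n with
  | zero => exact h0
  | succ n ih =>
    intro j h
    rw [UniA_succ]
    split_ifs with hm
    · have h2 := hm.choose_spec
      generalize hm.choose = m at h2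
      obtain ⟨g, x, y, l, σ⟩ := m
      obtain ⟨hC, hW, -, hj, hs, hB⟩ := h2
      simp only at hC hW hj hs hB
      have hc := hf.2 _ ⟨x :: y :: l, hC, hW, rfl⟩ g
      rw [lab_prod, List.map_map] at hc
      have hcons : cyc (x :: y :: l) = (x, y) :: (cyc (x :: y :: l)).tail := by
        rw [cyc_cons]
        rfl
      rw [hcons, List.map_cons, List.prod_cons] at hc
      have hc' : lab1 f g (T.st x y) * rst T f g x y l = 1 := hc
      rw [UniA_lab1 T f hf.1 hj hs hB] at hc'
      unfold UniA_val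
      simp only
      cases σ
      · simp only [Bool.false_eq_true, if_false] at hc' ⊢
        rw [UniA_map_rst T _ _ f ih]
        exact (inv_mul_eq_one.1 hc').symm
      · simp only [if_true] at hc' ⊢
        rw [map_inv, UniA_map_rst T _ _ f ih]
        exact (eq_inv_of_mul_eq_one_left hc').symm
    · exact h0 j h

end Pool.Agent.HC2
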